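import Mathlib
import Pool.Agent.N248.KG.O
set_option autoImplicit false

/-! Kakeya sets in sparse random regions: from the whole space to random regions. -/

namespace Pool.Agent.N248.KS

open MeasureTheory Set Metric ProbabilityTheory
open scoped ENNReal NNReal
open Pool.Agent.N248.KR Pool.Agent.N248.KG

variable {d : ℕ}

/-- separated directions, a positive proportion -/
def Dn (c δ : ℝ) (S : Finset (Dir (d + 1))) : Prop :=
  (∀ e ∈ S, ∀ e' ∈ S, e ≠ e' → δ ≤ ‖(e : E (d + 1)) - (e' : E (d + 1))‖) ∧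
    c * (δ ^ d)⁻¹ ≤ (S.card : ℝ)

/-- the tubes in the directions of `S` have a part of measure `≥ c |T|` in `W` -/
def Hit (c δ : ℝ) (S : Finset (Dir (d + 1))) (W : Set (E (d + 1))) : Prop :=
  ∀ e ∈ S, ∃ a : E (d + 1), ENNReal.ofReal c * volume (cyl (1 / 2) δ a (e : E (d + 1))) ≤
    volume (W ∩ cyl (1 / 2) δ a (e : E (d + 1)))

/-- the discretised Kakeya bound -/
def KD (d : ℕ) (γ : ℝ) : Prop :=
  ∀ c ε R : ℝ, 0 < c → 0 < ε → 0 < R → ∃ c' : ℝ, 0 < c' ∧ ∀ δ : ℝ, 0 < δ → δ < 1 →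
    ∀ S : Finset (Dir (d + 1)), Dn c δ S → ∀ W : Set (E (d + 1)), MeasurableSet W →
      W ⊆ closedBall 0 R → Hit c δ S W → ENNReal.ofReal (c' * δ ^ (γ + ε)) ≤ volume W

theorem geo (y : ℝ) (hy : 0 ≤ y) (n : ℕ) :
    ∑ l ∈ Finset.range n, (if (2 : ℝ) ^ l ≤ y then (2 : ℝ) ^ (l + 1) else 0) ≤ 4 * y := by
  induction n with
  | zero => simp; exact hy
  | succ n ih =>
    by_cases h : (2 : ℝ) ^ n ≤ y
    · have h1 : ∑ l ∈ Finset.range (n + 1), (if (2 : ℝ) ^ l ≤ y then (2 : ℝ) ^ (l + 1) else 0) ≤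
          ∑ l ∈ Finset.range (n + 1), (2 : ℝ) ^ (l + 1) := by
        refine Finset.sum_le_sum fun l _ => ?_
        split_ifs
        · exact le_rfl
        · positivity
      have h2 : ∑ l ∈ Finset.range (n + 1), (2 : ℝ) ^ (l + 1) = 2 * (2 ^ (n + 1) - 1) := by
        have := geom_sum_eq (x := (2 : ℝ)) (by norm_num) (n + 1)
        have h3 : ∑ l ∈ Finset.range (n + 1), (2 : ℝ) ^ (l + 1) =
            2 * ∑ l ∈ Finset.range (n + 1), (2 : ℝ) ^ l := by
          rw [Finset.mul_sum]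
          exact Finset.sum_congr rfl fun l _ => by ring
        rw [h3, this]
        norm_num
      rw [h2] at h1
      rw [pow_succ] at h1
      linarith
    · rw [Finset.sum_range_succ, if_neg h, add_zero]
      exact ih

/-- a large multiplicity by levels above `μ / 2` -/
theorem lev_up (c μ : ℝ) (hμ : 1 ≤ μ) (hc : μ ≤ c) (L : ℕ) (hL : c ≤ 2 ^ L) :
    c ≤ ∑ l ∈ (Finset.range (L + 1)).filter (fun l => μ / 2 ≤ (2 : ℝ) ^ l),
      (2 : ℝ) ^ (l + 1) * (if (2 : ℝ) ^ l ≤ c then 1 else 0) := by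
  have hex : ∃ l : ℕ, c < 2 ^ (l + 1) :=
    ⟨L, hL.trans_lt (pow_lt_pow_right₀ (by norm_num) (by omega))⟩
  classical
  set l := Nat.find hex with hl
  have h1 : c < 2 ^ (l + 1) := Nat.find_spec hex
  have hlJ : l ≤ L := Nat.find_min' hex
    (hL.trans_lt (pow_lt_pow_right₀ (by norm_num) (by omega)))
  have h2 : (2 : ℝ) ^ l ≤ c := by
    rcases Nat.eq_zero_or_pos l with h0 | h0
    · rw [h0, pow_zero]; linarith
    · have := Nat.find_min hex (m := l - 1) (by omega)
      rw [not_lt, Nat.sub_add_cancel h0] at this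
      exact this
  have h3 : μ / 2 ≤ (2 : ℝ) ^ l := by
    rw [pow_succ] at h1
    linarith
  calc c ≤ (2 : ℝ) ^ (l + 1) * (if (2 : ℝ) ^ l ≤ c then 1 else 0) := by
        rw [if_pos h2, mul_one]; exact h1.le
    _ ≤ _ := Finset.single_le_sum (f := fun l => (2 : ℝ) ^ (l + 1) *
        (if (2 : ℝ) ^ l ≤ c then (1 : ℝ) else 0)) (fun _ _ => by positivity)
          (Finset.mem_filter.2 ⟨Finset.mem_range.2 (by omega), h3⟩)

open scoped Classical in
/-- sums over the chosen cells of large multiplicity -/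
theorem cells_sum {α Z : Type*} (F : Finset α) (U : Z → Set α) (K c lam : ℝ) (O : Set α)
    (hK : 1 ≤ K) (hc : 1 ≤ c) (hpass : PassR F U K c lam O) {ι : Type*} [Fintype ι]
    [Nonempty ι] (z : ι → Z) (hl : 0 ≤ lam)
    (hsm : 3 * Real.exp (-(K / 12)) * (Fintype.card ι * F.card) < 1)
    (μ : ℝ) (hμ : 1 ≤ μ) (L : ℕ) (hL : (Fintype.card ι : ℝ) ≤ 2 ^ L) :
    ∑ x ∈ F.filter (fun x => x ∈ O ∧ μ ≤ ct (fun i => U (z i)) x), ct (fun i => U (z i)) x ≤
      (L + 1) * (6 * c * K * Fintype.card ι) + Real.exp 2 * lam *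
        (16 * ∑ x ∈ F.filter (fun x => μ / 8 ≤ ct (fun i => U (z i)) x),
          ct (fun i => U (z i)) x) := by
  set T : ι → Set α := fun i => U (z i) with hT
  set m : ℝ := (Fintype.card ι : ℝ) with hm
  have hm1 : 1 ≤ m := by
    rw [hm]
    exact_mod_cast Fintype.card_pos
  set Lv := (Finset.range (L + 1)).filter (fun l => μ / 2 ≤ (2 : ℝ) ^ l) with hLv
  have h1 : ∑ x ∈ F.filter (fun x => x ∈ O ∧ μ ≤ ct T x), ct T x ≤
      ∑ l ∈ Lv, (2 : ℝ) ^ (l + 1) * (F.filter fun x => (2 : ℝ) ^ l ≤ ct T x ∧ x ∈ O).card := by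
    calc ∑ x ∈ F.filter (fun x => x ∈ O ∧ μ ≤ ct T x), ct T x
        ≤ ∑ x ∈ F.filter (fun x => x ∈ O ∧ μ ≤ ct T x), ∑ l ∈ Lv,
          (2 : ℝ) ^ (l + 1) * (if (2 : ℝ) ^ l ≤ ct T x then 1 else 0) :=
          Finset.sum_le_sum fun x hx => lev_up _ μ hμ (Finset.mem_filter.1 hx).2.2 L
            ((ct_le T x).trans hL)
      _ = ∑ l ∈ Lv, ∑ x ∈ F.filter (fun x => x ∈ O ∧ μ ≤ ct T x),
          (2 : ℝ) ^ (l + 1) * (if (2 : ℝ) ^ l ≤ ct T x then 1 else 0) := Finset.sum_comm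
      _ ≤ _ := by
          refine Finset.sum_le_sum fun l _ => ?_
          rw [← Finset.mul_sum, Finset.sum_boole, Finset.filter_filter]
          refine mul_le_mul_of_nonneg_left ?_ (by positivity)
          have : (F.filter fun x => (x ∈ O ∧ μ ≤ ct T x) ∧ (2 : ℝ) ^ l ≤ ct T x) ⊆
              F.filter fun x => (2 : ℝ) ^ l ≤ ct T x ∧ x ∈ O := by
            intro x hx
            obtain ⟨a1, ⟨a2, a3⟩, a4⟩ := Finset.mem_filter.1 hx
            exact Finset.mem_filter.2 ⟨a1, a4, a2⟩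
          exact_mod_cast Finset.card_le_card this
  have h2 : ∀ l ∈ Lv, (2 : ℝ) ^ (l + 1) *
      (F.filter fun x => (2 : ℝ) ^ l ≤ ct T x ∧ x ∈ O).card ≤
      6 * c * K * m + Real.exp 2 * lam * ((2 : ℝ) ^ (l + 1) *
        (F.filter fun x => (2 : ℝ) ^ l / 4 ≤ ct T x).card) := by
    intro l _
    have h2l : (1 : ℝ) ≤ 2 ^ l := one_le_pow₀ (by norm_num)
    rcases le_or_gt ((2 : ℝ) ^ l) m with h | h
    · have h3 := level_count F U K c lam O hK hc hpass z hl hsm (2 ^ l) h2l h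
      calc (2 : ℝ) ^ (l + 1) * ((F.filter fun x => (2 : ℝ) ^ l ≤ ct T x ∧ x ∈ O).card : ℝ)
          ≤ (2 : ℝ) ^ (l + 1) * (3 * c * K * (m / 2 ^ l) + Real.exp 2 * (lam *
            (F.filter fun x => (2 : ℝ) ^ l / 4 ≤ ct T x).card)) := by gcongr
        _ = _ := by
            rw [pow_succ]
            have : (2 : ℝ) ^ l ≠ 0 := by positivity
            field_simp
            ring
    · have h3 : (F.filter fun x => (2 : ℝ) ^ l ≤ ct T x ∧ x ∈ O) = ∅ := by
        refine Finset.filter_false_of_mem fun x _ hx => ?_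
        have := ct_le T x
        linarith [hx.1]
      rw [h3, Finset.card_empty]
      simp only [Nat.cast_zero, mul_zero]
      positivity
  refine h1.trans ((Finset.sum_le_sum h2).trans ?_)
  rw [Finset.sum_add_distrib, Finset.sum_const, nsmul_eq_mul, ← Finset.mul_sum]
  have h4 : (Lv.card : ℝ) ≤ L + 1 := by
    have : Lv.card ≤ L + 1 := (Finset.card_filter_le _ _).trans (by rw [Finset.card_range])
    exact_mod_cast this
  have h5 : ∑ l ∈ Lv, (2 : ℝ) ^ (l + 1) * (F.filter fun x => (2 : ℝ) ^ l / 4 ≤ ct T x).card ≤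
      16 * ∑ x ∈ F.filter (fun x => μ / 8 ≤ ct T x), ct T x := by
    calc ∑ l ∈ Lv, (2 : ℝ) ^ (l + 1) * (F.filter fun x => (2 : ℝ) ^ l / 4 ≤ ct T x).card
        = ∑ l ∈ Lv, ∑ x ∈ F, (2 : ℝ) ^ (l + 1) * (if (2 : ℝ) ^ l / 4 ≤ ct T x then 1 else 0) := by
          refine Finset.sum_congr rfl fun l _ => ?_
          rw [← Finset.mul_sum, Finset.sum_boole]
      _ = ∑ x ∈ F, ∑ l ∈ Lv, (2 : ℝ) ^ (l + 1) * (if (2 : ℝ) ^ l / 4 ≤ ct T x then 1 else 0) :=
          Finset.sum_comm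
      _ ≤ ∑ x ∈ F, (if μ / 8 ≤ ct T x then 16 * ct T x else 0) := by
          refine Finset.sum_le_sum fun x _ => ?_
          split_ifs with h
          · have h6 := geo (4 * ct T x) (by have := ct_nonneg T x; positivity) (L + 1)
            refine le_trans ?_ (le_trans h6 (by linarith))
            calc ∑ l ∈ Lv, (2 : ℝ) ^ (l + 1) * (if (2 : ℝ) ^ l / 4 ≤ ct T x then 1 else 0)
                ≤ ∑ l ∈ Finset.range (L + 1),
                  (2 : ℝ) ^ (l + 1) * (if (2 : ℝ) ^ l / 4 ≤ ct T x then 1 else 0) :=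
                  Finset.sum_le_sum_of_subset_of_nonneg (Finset.filter_subset _ _)
                    fun l _ _ => by positivity
              _ = _ := by
                  refine Finset.sum_congr rfl fun l _ => ?_
                  by_cases h7 : (2 : ℝ) ^ l / 4 ≤ ct T x
                  · rw [if_pos h7, if_pos (by linarith), mul_one]
                  · rw [if_neg h7, if_neg (by intro h8; exact h7 (by linarith)), mul_zero]
          · refine le_of_eq (Finset.sum_eq_zero fun l hl => ?_)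
            have h7 := (Finset.mem_filter.1 hl).2
            rw [if_neg (by intro h8; exact h (by linarith)), mul_zero]
      _ = _ := by
          rw [← Finset.sum_filter, Finset.mul_sum]
  gcongr

end Pool.Agent.N248.KS
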