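import Mathlib
import Pool.Agent.N248.KS.A
set_option autoImplicit false

/-! Kakeya sets in sparse random regions: the deterministic step. -/

namespace Pool.Agent.N248.KS

open MeasureTheory Set Metric ProbabilityTheory
open scoped ENNReal NNReal
open Pool.Agent.N248.KR Pool.Agent.N248.KG

variable {d : ℕ}

theorem cyl_ball {n : ℕ} {h r : ℝ} {a e y : E n} (he : ‖e‖ = 1) (hy : y ∈ cyl h r a e) :
    ‖y - a‖ ≤ h + r := by
  obtain ⟨h1, h2⟩ := hy
  have h3 : y - a = (inner ℝ (y - a) e) • e + ((y - a) - (inner ℝ (y - a) e) • e) := by abel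
  rw [h3]
  refine (norm_add_le _ _).trans (add_le_add ?_ h2)
  rw [norm_smul, he, mul_one, Real.norm_eq_abs]
  exact h1

theorem qc_real {n : ℕ} {δ : ℝ} (hδ : 0 < δ) (j : Fin n → ℤ) :
    volume.real (qc δ j) = δ ^ n := by
  unfold Measure.real
  rw [qc_vol hδ, ENNReal.toReal_ofReal (by positivity)]

open scoped Classical in
/-- **the deterministic step** -/
theorem core {Z : Type*} {δ K c lam R b : ℝ} (hδ : 0 < δ) (hδ5 : δ ≤ 1 / 5)
    (hR : 0 ≤ R) (pos dir : Z → E (d + 1)) (hdir : ∀ z, ‖dir z‖ = 1)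
    (G : Finset (E (d + 1) × ℝ))
    (hG : ∀ a e : E (d + 1), ‖e‖ = 1 →
      ∀ y ∈ cyl ((d + 1 : ℕ) + 6) (((d + 1 : ℕ) + 6) * δ) a e,
      ∃ g ∈ G, y ∈ cyl (1 / 2) δ (a + δ • g.1 + g.2 • e) e)
    (hnet : ∀ a e : E (d + 1), ‖a‖ ≤ R + 1 → ‖e‖ = 1 → ∃ z, ‖a - pos z‖ ≤ δ ∧ ‖e - dir z‖ ≤ δ)
    (F : Finset (Fin (d + 1) → ℤ)) (O : Set (Fin (d + 1) → ℤ))
    (hF : ∀ x ∈ closedBall (0 : E (d + 1)) R, ∀ j, x ∈ qc δ j → j ∈ F)
    (hK : 1 ≤ K) (hc : 1 ≤ c) (hl : 0 < lam) (hpass : PassR F (UU δ pos dir) K c lam O)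
    (S : Finset (Dir (d + 1))) (hS : S.Nonempty)
    (hsm : 3 * Real.exp (-(K / 12)) * (S.card * F.card) < 1) (L : ℕ) (hL : (S.card : ℝ) ≤ 2 ^ L)
    (W : Set (E (d + 1))) (hW : MeasurableSet W)
    (hWR : W ⊆ reg δ O ∩ closedBall (0 : E (d + 1)) R) (hb : 0 < b)
    (hit : ∀ e ∈ S, ∃ a : E (d + 1), b * δ ^ d ≤
      volume.real (W ∩ cyl (1 / 2) δ a (e : E (d + 1))))
    (hv : 2 * volume.real W ≤ S.card * b * δ ^ d) (hneg : (L + 1) * (6 * c * K) * δ ≤ b / 4) :
    0 < G.card ∧ ∃ V : Set (E (d + 1)), MeasurableSet V ∧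
      V ⊆ closedBall 0 (R + 2 * (d + 1) + 13) ∧
      volume.real V * b ≤ 16 * (G.card * 2 ^ d) * volume.real W ∧
      b / (128 * Real.exp 2 * lam * G.card) / 2 ^ d * S.card ≤ ((S.filter fun e : Dir (d + 1) =>
        ∃ a : E (d + 1), b / (128 * Real.exp 2 * lam * G.card) * δ ^ d ≤
          volume.real (V ∩ cyl (1 / 2) δ a (e : E (d + 1)))).card : ℝ) := by
  have hδd : 0 < δ ^ d := by positivity
  have hδn : 0 < δ ^ (d + 1) := by positivity
  have hd0 : (0 : ℝ) ≤ d := Nat.cast_nonneg d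
  have hn : ∀ e : Dir (d + 1), ‖(e : E (d + 1))‖ = 1 := fun e => norm_eq_of_mem_sphere e
  have hWfin : volume W ≠ ⊤ := by
    refine ne_top_of_le_ne_top ?_ (measure_mono (hWR.trans inter_subset_right))
    exact measure_closedBall_lt_top.ne
  have hGc : 0 < G.card := by
    obtain ⟨e, -⟩ := hS
    obtain ⟨g, hg, -⟩ := hG 0 e (hn e) 0 (by
      refine ⟨?_, ?_⟩
      · simp
        positivity
      · simp
        positivity)
    exact Finset.card_pos.2 ⟨g, hg⟩
  have hGc' : (0 : ℝ) < G.card := by exact_mod_cast hGc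
  have hM0 : (0 : ℝ) < S.card := by exact_mod_cast hS.card_pos
  refine ⟨hGc, ?_⟩
  set w : ℝ := volume.real W with hw
  set X : ℝ := S.card * b * δ ^ d with hX
  have hX0 : 0 < X := by positivity
  have hbδ : 0 < b * δ ^ d := by positivity
  have hw0 : 0 < w := by
    obtain ⟨e, he⟩ := hS
    obtain ⟨a, ha⟩ := hit e he
    exact hbδ.trans_le (ha.trans (measureReal_mono inter_subset_left hWfin))
  -- the tubes
  have hex : ∀ e : S, ∃ a : E (d + 1), ‖a‖ ≤ R + 1 ∧ b * δ ^ d ≤
      volume.real (W ∩ cyl (1 / 2) δ a ((e : Dir (d + 1)) : E (d + 1))) := by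
    intro e
    obtain ⟨a, ha⟩ := hit e e.2
    refine ⟨a, ?_, ha⟩
    have hne : (W ∩ cyl (1 / 2) δ a ((e : Dir (d + 1)) : E (d + 1))).Nonempty := by
      by_contra hcon
      rw [Set.not_nonempty_iff_eq_empty] at hcon
      rw [hcon, measureReal_empty] at ha
      linarith
    obtain ⟨y, hy1, hy2⟩ := hne
    have h3 := (hWR hy1).2
    rw [mem_closedBall_zero_iff] at h3
    have h4 := cyl_ball (hn e) hy2
    have h5 : ‖a‖ ≤ ‖y‖ + ‖y - a‖ := by
      have : a = y - (y - a) := by abel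
      conv_lhs => rw [this]
      exact norm_sub_le _ _
    linarith
  choose a ha1 ha2 using hex
  choose z hz1 hz2 using fun e : S => hnet (a e) ((e : Dir (d + 1)) : E (d + 1)) (ha1 e) (hn e)
  set T : S → Set (Fin (d + 1) → ℤ) := fun e => UU δ pos dir (z e) with hT
  haveI : Nonempty S := ⟨⟨hS.choose, hS.choose_spec⟩⟩
  have hcard : (Fintype.card S : ℝ) = S.card := by rw [Fintype.card_coe]
  -- step 1
  have hQfin : ∀ j : Fin (d + 1) → ℤ, volume (qc δ j) ≠ ⊤ := fun j => by
    rw [qc_vol hδ]; exact ENNReal.ofReal_ne_top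
  have hind : ∀ (A : Finset (Fin (d + 1) → ℤ)) (f : (Fin (d + 1) → ℤ) → ℝ),
      ∑ j ∈ A, ct T j * f j = ∑ e : S, ∑ j ∈ A.filter (fun j => j ∈ T e), f j := by
    intro A f
    calc ∑ j ∈ A, ct T j * f j = ∑ j ∈ A, ∑ e : S, (T e).indicator (fun _ => (1 : ℝ)) j * f j := by
          refine Finset.sum_congr rfl fun j _ => ?_
          unfold ct
          rw [Finset.sum_mul]
      _ = ∑ e : S, ∑ j ∈ A, (T e).indicator (fun _ => (1 : ℝ)) j * f j := Finset.sum_comm
      _ = _ := by
          refine Finset.sum_congr rfl fun e _ => ?_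
          rw [Finset.sum_filter]
          refine Finset.sum_congr rfl fun j _ => ?_
          by_cases h : j ∈ T e
          · rw [indicator_of_mem h, one_mul, if_pos h]
          · rw [indicator_of_notMem h, zero_mul, if_neg h]
  set A0 := F.filter (fun j => j ∈ O) with hA0
  have hs1 : X ≤ ∑ j ∈ A0, ct T j * volume.real (W ∩ qc δ j) := by
    rw [hind]
    have h1 : ∀ e : S, b * δ ^ d ≤ ∑ j ∈ A0.filter (fun j => j ∈ T e),
        volume.real (W ∩ qc δ j) := by
      intro e
      refine (ha2 e).trans ?_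
      refine le_trans (measureReal_mono ?_ ?_) (measureReal_biUnion_finset_le _ _)
      · intro y hy
        obtain ⟨h2, h3⟩ := hWR hy.1
        unfold reg at h2
        rw [mem_iUnion₂] at h2
        obtain ⟨j, hj, hyj⟩ := h2
        rw [mem_iUnion₂]
        refine ⟨j, ?_, hy.1, hyj⟩
        refine Finset.mem_filter.2 ⟨Finset.mem_filter.2 ⟨hF y h3 j hyj, hj⟩, ?_⟩
        exact ⟨y, hyj, thin_fat (hdir (z e)) hδ5 (hz1 e) (hz2 e) hy.2⟩
      · refine ne_top_of_le_ne_top hWfin (measure_mono ?_)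
        intro y hy
        rw [mem_iUnion₂] at hy
        obtain ⟨j, _, hy1, _⟩ := hy
        exact hy1
    calc X = ∑ _e : S, b * δ ^ d := by
          rw [Finset.sum_const, Finset.card_univ, nsmul_eq_mul, hcard, hX, mul_assoc]
      _ ≤ _ := Finset.sum_le_sum fun e _ => h1 e
  -- step 2
  set μ : ℝ := X / (2 * w) with hμ
  have hμ1 : 1 ≤ μ := by rw [hμ, le_div_iff₀ (by positivity), one_mul]; exact hv
  have hs2 : X / 2 ≤ δ ^ (d + 1) *
      ∑ j ∈ F.filter (fun x => x ∈ O ∧ μ ≤ ct T x), ct T j := by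
    have h1 : ∑ j ∈ A0, volume.real (W ∩ qc δ j) ≤ w := by
      rw [← measureReal_biUnion_finset (fun j _ k _ h =>
        (qc_disj hδ j k h).mono inter_subset_right inter_subset_right)
        (fun j _ => hW.inter (qc_meas δ j)) fun j _ =>
          ne_top_of_le_ne_top hWfin (measure_mono inter_subset_left)]
      refine measureReal_mono ?_ hWfin
      intro y hy
      rw [mem_iUnion₂] at hy
      obtain ⟨j, _, hy1, _⟩ := hy
      exact hy1
    have h2 : ∀ j ∈ A0, ct T j * volume.real (W ∩ qc δ j) ≤ μ * volume.real (W ∩ qc δ j) +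
        (if μ ≤ ct T j then ct T j * δ ^ (d + 1) else 0) := by
      intro j _
      have h3 : volume.real (W ∩ qc δ j) ≤ δ ^ (d + 1) := by
        rw [← qc_real hδ j]
        exact measureReal_mono inter_subset_right (hQfin j)
      have h4 : 0 ≤ volume.real (W ∩ qc δ j) := measureReal_nonneg
      have h5 := ct_nonneg T j
      split_ifs with h
      · have : ct T j * volume.real (W ∩ qc δ j) ≤ ct T j * δ ^ (d + 1) := by gcongr
        have : 0 ≤ μ * volume.real (W ∩ qc δ j) := by positivity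
        linarith
      · push Not at h
        rw [add_zero]
        gcongr
    have h3 : ∑ j ∈ A0, (if μ ≤ ct T j then ct T j * δ ^ (d + 1) else 0) =
        δ ^ (d + 1) * ∑ j ∈ F.filter (fun x => x ∈ O ∧ μ ≤ ct T x), ct T j := by
      rw [← Finset.sum_filter, hA0, Finset.filter_filter, Finset.mul_sum]
      exact Finset.sum_congr rfl fun j _ => mul_comm _ _
    have h4 : X ≤ μ * w + δ ^ (d + 1) *
        ∑ j ∈ F.filter (fun x => x ∈ O ∧ μ ≤ ct T x), ct T j := by
      refine hs1.trans ((Finset.sum_le_sum h2).trans ?_)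
      rw [Finset.sum_add_distrib, h3, ← Finset.mul_sum]
      gcongr
    have h5 : μ * w = X / 2 := by rw [hμ]; field_simp
    linarith
  -- step 3
  set H := F.filter (fun x => μ / 8 ≤ ct T x) with hH
  set N : ℝ := δ ^ (d + 1) * ∑ j ∈ H, ct T j with hN
  have hs3 : X / 4 ≤ 16 * Real.exp 2 * lam * N := by
    have h1 := cells_sum F (UU δ pos dir) K c lam O hK hc hpass z hl.le
      (by rw [hcard]; exact hsm) μ hμ1 L (by rw [hcard]; exact hL)
    rw [hcard] at h1
    have h2 : δ ^ (d + 1) * ∑ x ∈ F.filter (fun x => x ∈ O ∧ μ ≤ ct T x), ct T x ≤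
        δ ^ (d + 1) * ((L + 1) * (6 * c * K * S.card) + Real.exp 2 * lam *
          (16 * ∑ x ∈ H, ct T x)) := mul_le_mul_of_nonneg_left h1 hδn.le
    have h3 : δ ^ (d + 1) * ((L + 1) * (6 * c * K * S.card)) ≤ X / 4 := by
      calc δ ^ (d + 1) * ((L + 1) * (6 * c * K * S.card)) =
            (S.card * δ ^ d) * ((L + 1) * (6 * c * K) * δ) := by rw [pow_succ]; ring
        _ ≤ (S.card * δ ^ d) * (b / 4) := by gcongr
        _ = _ := by rw [hX]; ring
    have h4 : δ ^ (d + 1) * (Real.exp 2 * lam * (16 * ∑ x ∈ H, ct T x)) =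
        16 * Real.exp 2 * lam * N := by rw [hN]; ring
    have h5 : δ ^ (d + 1) * ((L + 1) * (6 * c * K * S.card) + Real.exp 2 * lam *
          (16 * ∑ x ∈ H, ct T x)) = δ ^ (d + 1) * ((L + 1) * (6 * c * K * S.card)) +
          δ ^ (d + 1) * (Real.exp 2 * lam * (16 * ∑ x ∈ H, ct T x)) := mul_add _ _ _
    linarith
  -- step 4
  set V : Set (E (d + 1)) := ⋃ j ∈ H, qc δ j with hV
  have hVm : MeasurableSet V := Finset.measurableSet_biUnion _ fun j _ => qc_meas δ j
  have hVr : volume.real V = H.card * δ ^ (d + 1) := by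
    rw [hV, measureReal_biUnion_finset (fun j _ k _ h => qc_disj hδ j k h)
      (fun j _ => qc_meas δ j) fun j _ => hQfin j, Finset.sum_congr rfl fun j _ => qc_real hδ j,
      Finset.sum_const, nsmul_eq_mul]
  set fat : S → Set (E (d + 1)) := fun e =>
    cyl ((d + 1 : ℕ) + 6) (((d + 1 : ℕ) + 6) * δ) (a e) ((e : Dir (d + 1)) : E (d + 1)) with hfat
  have hsub : ∀ e : S, ∀ j ∈ T e, qc δ j ⊆ fat e := fun e j hj y hy =>
    cell_sub hδ (by linarith) pos dir (z e) (hn e) (hz1 e) (hz2 e) hj hy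
  have hVb : V ⊆ closedBall 0 (R + 2 * (d + 1) + 13) := by
    intro y hy
    rw [hV, mem_iUnion₂] at hy
    obtain ⟨j, hj, hyj⟩ := hy
    have h1 : μ / 8 ≤ ct T j := (Finset.mem_filter.1 hj).2
    have h2 : ∃ e : S, j ∈ T e := by
      by_contra hcon
      push Not at hcon
      have : ct T j = 0 := by
        unfold ct
        exact Finset.sum_eq_zero fun e _ => indicator_of_notMem (hcon e) _
      linarith
    obtain ⟨e, he⟩ := h2
    have h3 := cyl_ball (hn e) (hsub e j he hyj)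
    rw [mem_closedBall_zero_iff]
    have h5 : ‖y‖ ≤ ‖a e‖ + ‖y - a e‖ := by
      have : y = a e + (y - a e) := by abel
      conv_lhs => rw [this]
      exact norm_add_le _ _
    have h6 := ha1 e
    push_cast at h3
    nlinarith
  have hVfin : volume V ≠ ⊤ :=
    ne_top_of_le_ne_top measure_closedBall_lt_top.ne (measure_mono hVb)
  have hcov : ∀ e : S, volume.real (V ∩ fat e) ≤ ∑ g ∈ G, volume.real (V ∩
      cyl (1 / 2) δ (a e + δ • g.1 + g.2 • ((e : Dir (d + 1)) : E (d + 1)))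
        ((e : Dir (d + 1)) : E (d + 1))) := by
    intro e
    refine le_trans (measureReal_mono ?_ ?_) (measureReal_biUnion_finset_le _ _)
    · intro y hy
      obtain ⟨g, hg, h1⟩ := hG (a e) e (hn e) y hy.2
      rw [mem_iUnion₂]
      exact ⟨g, hg, hy.1, h1⟩
    · refine ne_top_of_le_ne_top hVfin (measure_mono ?_)
      intro y hy
      rw [mem_iUnion₂] at hy
      obtain ⟨g, _, h1, _⟩ := hy
      exact h1
  have hthin : ∀ (a' : E (d + 1)) (e : Dir (d + 1)),
      volume.real (V ∩ cyl (1 / 2) δ a' (e : E (d + 1))) ≤ 2 ^ d * δ ^ d := by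
    intro a' e
    have h1 : volume (V ∩ cyl (1 / 2) δ a' (e : E (d + 1))) ≤ ENNReal.ofReal (2 ^ d * δ ^ d) := by
      refine (measure_mono inter_subset_right).trans ((vol_cyl_le (by norm_num) hδ.le (hn e)).trans
        (le_of_eq ?_))
      congr 1
      rw [mul_pow]; ring
    unfold Measure.real
    exact ENNReal.toReal_le_of_le_ofReal (by positivity) h1
  have hNs : N ≤ ∑ e : S, volume.real (V ∩ fat e) := by
    have h1 : N = ∑ e : S, ∑ j ∈ H.filter (fun j => j ∈ T e), δ ^ (d + 1) := by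
      rw [← hind H (fun _ => δ ^ (d + 1)), hN, mul_comm, Finset.sum_mul]
    rw [h1]
    refine Finset.sum_le_sum fun e _ => ?_
    have h2 : ∑ j ∈ H.filter (fun j => j ∈ T e), δ ^ (d + 1) =
        volume.real (⋃ j ∈ H.filter (fun j => j ∈ T e), qc δ j) := by
      rw [measureReal_biUnion_finset (fun j _ k _ h => qc_disj hδ j k h)
        (fun j _ => qc_meas δ j) fun j _ => hQfin j]
      exact Finset.sum_congr rfl fun j _ => (qc_real hδ j).symm
    rw [h2]
    refine measureReal_mono ?_ (ne_top_of_le_ne_top hVfin (measure_mono inter_subset_left))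
    intro y hy
    rw [mem_iUnion₂] at hy
    obtain ⟨j, hj, hyj⟩ := hy
    obtain ⟨hj1, hj2⟩ := Finset.mem_filter.1 hj
    refine ⟨?_, hsub e j hj2 hyj⟩
    rw [hV, mem_iUnion₂]
    exact ⟨j, hj1, hyj⟩
  have hNX : N ≤ S.card * (G.card * (2 ^ d * δ ^ d)) := by
    refine hNs.trans ?_
    calc ∑ e : S, volume.real (V ∩ fat e) ≤ ∑ _e : S, G.card * (2 ^ d * δ ^ d) := by
          refine Finset.sum_le_sum fun e _ => (hcov e).trans ?_
          calc _ ≤ ∑ _g ∈ G, 2 ^ d * δ ^ d := Finset.sum_le_sum fun g _ => hthin _ _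
            _ = _ := by rw [Finset.sum_const, nsmul_eq_mul]
      _ = _ := by rw [Finset.sum_const, Finset.card_univ, nsmul_eq_mul, hcard]
  set β : ℝ := b / (128 * Real.exp 2 * lam * G.card) with hβ
  have he2 : 0 < Real.exp 2 := Real.exp_pos 2
  have hβ0 : 0 < β := by positivity
  refine ⟨V, hVm, hVb, ?_, ?_⟩
  · have h1 : H.card * δ ^ (d + 1) * (μ / 8) ≤ N := by
      rw [hN]
      have : (H.card : ℝ) * (μ / 8) ≤ ∑ j ∈ H, ct T j := by
        calc (H.card : ℝ) * (μ / 8) = ∑ _j ∈ H, μ / 8 := by rw [Finset.sum_const, nsmul_eq_mul]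
          _ ≤ _ := Finset.sum_le_sum fun j hj => (Finset.mem_filter.1 hj).2
      calc H.card * δ ^ (d + 1) * (μ / 8) = δ ^ (d + 1) * (H.card * (μ / 8)) := by ring
        _ ≤ _ := by gcongr
    rw [hVr]
    have h2 := h1.trans hNX
    have h3 : μ / 8 = S.card * b * δ ^ d / (16 * w) := by
      rw [hμ, hX]; field_simp; norm_num
    rw [h3, mul_div_assoc', div_le_iff₀ (by positivity)] at h2
    have h4 : (S.card * δ ^ d) * (H.card * δ ^ (d + 1) * b) ≤
        (S.card * δ ^ d) * (16 * (G.card * 2 ^ d) * w) := by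
      calc _ = H.card * δ ^ (d + 1) * (S.card * b * δ ^ d) := by ring
        _ ≤ _ := h2
        _ = _ := by ring
    exact le_of_mul_le_mul_left h4 (by positivity)
  · set P : Dir (d + 1) → Prop := fun e => ∃ a : E (d + 1), β * δ ^ d ≤
      volume.real (V ∩ cyl (1 / 2) δ a (e : E (d + 1))) with hP
    have h1 : ∀ e : S, volume.real (V ∩ fat e) ≤ (if P e then G.card * (2 ^ d * δ ^ d) else 0) +
        G.card * (β * δ ^ d) := by
      intro e
      split_ifs with h
      · refine ((hcov e).trans ?_).trans (le_add_of_nonneg_right (by positivity))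
        calc _ ≤ ∑ _g ∈ G, 2 ^ d * δ ^ d := Finset.sum_le_sum fun g _ => hthin _ _
          _ = _ := by rw [Finset.sum_const, nsmul_eq_mul]
      · rw [zero_add]
        refine (hcov e).trans ?_
        calc _ ≤ ∑ _g ∈ G, β * δ ^ d := by
              refine Finset.sum_le_sum fun g _ => ?_
              by_contra hcon
              push Not at hcon
              exact h ⟨_, hcon.le⟩
          _ = _ := by rw [Finset.sum_const, nsmul_eq_mul]
    have h2 : ∑ e : S, (if P e then (G.card : ℝ) * (2 ^ d * δ ^ d) else 0) =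
        ((S.filter P).card : ℝ) * (G.card * (2 ^ d * δ ^ d)) := by
      rw [Finset.sum_coe_sort S (fun e => if P e then (G.card : ℝ) * (2 ^ d * δ ^ d) else 0),
        ← Finset.sum_filter, Finset.sum_const, nsmul_eq_mul]
    have h3 : N ≤ ((S.filter P).card : ℝ) * (G.card * (2 ^ d * δ ^ d)) +
        S.card * (G.card * (β * δ ^ d)) := by
      refine hNs.trans ((Finset.sum_le_sum fun e _ => h1 e).trans ?_)
      rw [Finset.sum_add_distrib, h2, Finset.sum_const, Finset.card_univ, nsmul_eq_mul, hcard]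
    have h4 : 16 * Real.exp 2 * lam * (S.card * (G.card * (β * δ ^ d))) = X / 8 := by
      rw [hβ, hX]; field_simp; norm_num
    have h5 : X / 8 ≤ 16 * Real.exp 2 * lam *
        (((S.filter P).card : ℝ) * (G.card * (2 ^ d * δ ^ d))) := by
      have h6 : 16 * Real.exp 2 * lam * N ≤ 16 * Real.exp 2 * lam *
        (((S.filter P).card : ℝ) * (G.card * (2 ^ d * δ ^ d)) +
        S.card * (G.card * (β * δ ^ d))) := by gcongr
      rw [mul_add, h4] at h6
      linarith
    rw [← h4] at h5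
    have h7 : (16 * Real.exp 2 * lam * G.card * δ ^ d * 2 ^ d) * (β / 2 ^ d * S.card) ≤
        (16 * Real.exp 2 * lam * G.card * δ ^ d * 2 ^ d) * ((S.filter P).card : ℝ) := by
      calc _ = 16 * Real.exp 2 * lam * (S.card * (G.card * (β * δ ^ d))) := by
            field_simp
        _ ≤ _ := h5
        _ = _ := by ring
    exact le_of_mul_le_mul_left h7 (by positivity)

end Pool.Agent.N248.KS
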