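import Mathlib
import Pool.Agent.N248.KS.B
set_option autoImplicit false

/-! Kakeya sets in sparse random regions: from the whole space to random regions. -/

namespace Pool.Agent.N248.KS

open MeasureTheory Set Metric ProbabilityTheory
open scoped ENNReal NNReal
open Pool.Agent.N248.KR Pool.Agent.N248.KG

variable {d : ℕ}

/-- the Kakeya bound relative to random regions of density `δ ^ τ` -/
def RKD (d : ℕ) (τ γ : ℝ) : Prop :=
  ∀ c ε R B : ℝ, 0 < c → 0 < ε → 0 < R → 0 < B → ∃ c' C : ℝ, 0 < c' ∧ 0 < C ∧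
    ∀ δ : ℝ, 0 < δ → δ < 1 →
    ∀ (Ω : Type) [MeasurableSpace Ω] (P : Measure Ω) [IsProbabilityMeasure P]
      (A : (Fin (d + 1) → ℤ) → Set Ω), RCells P A (δ ^ τ) →
      P {x | ¬ ∀ S : Finset (Dir (d + 1)), Dn c δ S → ∀ W : Set (E (d + 1)), MeasurableSet W →
        W ⊆ reg δ {j | x ∈ A j} ∩ closedBall (0 : E (d + 1)) R → Hit (c * δ ^ τ) δ S W →
          ENNReal.ofReal (c' * δ ^ (τ + γ + ε)) ≤ volume W} ≤ ENNReal.ofReal (C * δ ^ B)

theorem card_sep (d : ℕ) (hd : 1 ≤ d) : ∃ C : ℝ, 1 ≤ C ∧ ∀ δ : ℝ, 0 < δ → δ < 1 →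
    ∀ S : Finset (Dir (d + 1)),
      (∀ e ∈ S, ∀ e' ∈ S, e ≠ e' → δ ≤ ‖(e : E (d + 1)) - (e' : E (d + 1))‖) →
      (S.card : ℝ) ≤ C * (δ ^ d)⁻¹ := by
  obtain ⟨c, C, hc, hC, hcap⟩ := capB d hd
  refine ⟨2 ^ d / c + 1, by
    have : 0 < 2 ^ d / c := by positivity
    linarith, ?_⟩
  intro δ hδ hδ1 S hsep
  have hdis : (S : Set (Dir (d + 1))).PairwiseDisjoint fun e => cp e (δ / 2) := by
    intro i hi j hj hij
    show Disjoint (cp i (δ / 2)) (cp j (δ / 2))
    rw [Set.disjoint_left]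
    intro θ h1 h2
    have h3 := hsep i hi j hj hij
    have h4 : ‖(i : E (d + 1)) - (j : E (d + 1))‖ ≤
        ‖(i : E (d + 1)) - (θ : E (d + 1))‖ + ‖(j : E (d + 1)) - (θ : E (d + 1))‖ := by
      have : (i : E (d + 1)) - (j : E (d + 1)) =
          ((i : E (d + 1)) - (θ : E (d + 1))) - ((j : E (d + 1)) - (θ : E (d + 1))) := by abel
      rw [this]
      exact norm_sub_le _ _
    have h5 : ‖(i : E (d + 1)) - (θ : E (d + 1))‖ < δ / 2 := h1
    have h6 : ‖(j : E (d + 1)) - (θ : E (d + 1))‖ < δ / 2 := h2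
    linarith
  have h1 : (S.card : ℝ≥0∞) * ENNReal.ofReal (c * (δ / 2) ^ d) ≤ 1 := by
    calc (S.card : ℝ≥0∞) * ENNReal.ofReal (c * (δ / 2) ^ d)
        = ∑ _e ∈ S, ENNReal.ofReal (c * (δ / 2) ^ d) := by
          rw [Finset.sum_const, nsmul_eq_mul]
      _ ≤ ∑ e ∈ S, Pu d (cp e (δ / 2)) :=
          Finset.sum_le_sum fun e _ => (hcap (δ / 2) (by linarith) (by linarith) e).1
      _ = Pu d (⋃ e ∈ S, cp e (δ / 2)) := by
          rw [measure_biUnion_finset hdis fun e _ => cp_meas _ _]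
      _ ≤ 1 := prob_le_one
  rw [← ENNReal.ofReal_natCast, ← ENNReal.ofReal_mul (Nat.cast_nonneg _), ← ENNReal.ofReal_one,
    ENNReal.ofReal_le_ofReal_iff zero_le_one] at h1
  have hδd : 0 < δ ^ d := by positivity
  have h2 : (S.card : ℝ) * δ ^ d ≤ 2 ^ d / c := by
    rw [le_div_iff₀ hc]
    rw [div_pow, mul_div_assoc', mul_div_assoc', div_le_one (by positivity)] at h1
    linarith
  rw [← div_eq_mul_inv, le_div_iff₀ hδd]
  linarith

/-- parts of tubes -/
theorem Hit.real {c δ : ℝ} (hδ : 0 < δ) (hc : 0 < c) {S : Finset (Dir (d + 1))}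
    {W : Set (E (d + 1))} (hW : volume W ≠ ⊤) (h : Hit c δ S W) (e : Dir (d + 1)) (he : e ∈ S) :
    ∃ a : E (d + 1), c * kap d * δ ^ d ≤ volume.real (W ∩ cyl (1 / 2) δ a (e : E (d + 1))) := by
  obtain ⟨a, ha⟩ := h e he
  have hκ := kap_pos d
  refine ⟨a, ?_⟩
  have h1 : ENNReal.ofReal (kap d * δ ^ d) ≤ volume (cyl (1 / 2) δ a (e : E (d + 1))) :=
    vol_cyl_ge hδ (norm_eq_of_mem_sphere e)
  have h2 : ENNReal.ofReal (c * kap d * δ ^ d) ≤
      volume (W ∩ cyl (1 / 2) δ a (e : E (d + 1))) := by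
    refine le_trans ?_ ha
    rw [mul_assoc, ENNReal.ofReal_mul hc.le]
    gcongr
  unfold Measure.real
  rwa [← ENNReal.ofReal_le_iff_le_toReal (ne_top_of_le_ne_top hW (measure_mono inter_subset_left))]

/-- **from the whole space to random regions** -/
theorem fwd (hd : 1 ≤ d) {τ γ : ℝ} (hτ : 0 ≤ τ) (hτ1 : τ < 1) (hγ : 0 ≤ γ) (h : KD d γ) :
    RKD d τ γ := by
  classical
  intro c ε R B hc hε hR hB
  have hκ := kap_pos d
  have hd0 : (0 : ℝ) ≤ d := Nat.cast_nonneg d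
  have he2 : 0 < Real.exp 2 := Real.exp_pos 2
  obtain ⟨Cs, hCs, hsepc⟩ := card_sep d hd
  obtain ⟨C1, hC1, hnet⟩ := net (d + 1) (R + 1) (by linarith)
  obtain ⟨G, hG⟩ := cov (d + 1) ((d + 1 : ℕ) + 6) ((d + 1 : ℕ) + 6) (by push_cast; linarith)
  set s : ℝ := (1 - τ) / 6 with hs
  have hs0 : 0 < s := by rw [hs]; linarith
  obtain ⟨C0, hC0, hpar⟩ := par d (C1 := C1) (C2 := 2 * R + 5) (κ := kap d) (p := 1) (s := s)
    (B := B) hC1 (by linarith) hκ one_pos hs0 hB.le
  set g : ℝ := (G.card : ℝ) + 1 with hg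
  have hg0 : 0 < g := by positivity
  set β : ℝ := c * kap d / (128 * Real.exp 2 * g) with hβ
  have hβ0 : 0 < β := by positivity
  set c2 : ℝ := min (β / 2 ^ d * c) (β / 2 ^ d) with hc2
  have hc20 : 0 < c2 := lt_min (by positivity) (by positivity)
  obtain ⟨c1, hc10, hKD⟩ := h c2 ε (R + 2 * (d + 1) + 13) hc20 hε (by positivity)
  set δ₁ : ℝ := (c * kap d / (24 * C0 ^ 3)) ^ (2 / (1 - τ)) with hδ₁
  have hδ₁0 : 0 < δ₁ := by positivity
  set δ₀ : ℝ := min (1 / 10) (min (1 / Cs) δ₁) with hδ₀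
  have hδ₀0 : 0 < δ₀ := lt_min (by norm_num) (lt_min (by positivity) hδ₁0)
  set k1 : ℝ := c1 * (c * kap d) / (16 * (g * 2 ^ d)) with hk1
  set k2 : ℝ := c * (c * kap d) / 2 with hk2
  set k3 : ℝ := c * kap d * δ₀ ^ (τ + d) with hk3
  have hk10 : 0 < k1 := by positivity
  have hk20 : 0 < k2 := by positivity
  have hk30 : 0 < k3 := by positivity
  refine ⟨min k1 (min k2 k3), 1, lt_min hk10 (lt_min hk20 hk30), one_pos, ?_⟩
  intro δ hδ hδ1 Ω _ P _ A hA
  have hδd : 0 < δ ^ d := by positivity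
  have hlam : 0 < δ ^ τ := by positivity
  have hpow : δ ^ (τ + γ + ε) ≤ 1 := Real.rpow_le_one hδ.le hδ1.le (by linarith)
  have hpow0 : 0 < δ ^ (τ + γ + ε) := by positivity
  have hk : min k1 (min k2 k3) ≤ k1 := min_le_left _ _
  have hk' : min k1 (min k2 k3) ≤ k2 := (min_le_right _ _).trans (min_le_left _ _)
  have hk'' : min k1 (min k2 k3) ≤ k3 := (min_le_right _ _).trans (min_le_right _ _)
  -- real form of the conclusion
  have hconcl : ∀ W : Set (E (d + 1)), volume W ≠ ⊤ →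
      min k1 (min k2 k3) * δ ^ (τ + γ + ε) ≤ volume.real W →
      ENNReal.ofReal (min k1 (min k2 k3) * δ ^ (τ + γ + ε)) ≤ volume W := by
    intro W hW h1
    rwa [ENNReal.ofReal_le_iff_le_toReal hW]
  have hne : ∀ S : Finset (Dir (d + 1)), Dn c δ S → S.Nonempty := by
    intro S hS
    rw [← Finset.card_pos]
    have h1 := hS.2
    have h2 : 0 < c * (δ ^ d)⁻¹ := by positivity
    exact_mod_cast h2.trans_le h1
  rcases lt_or_ge δ₀ δ with hlt | hle
  · have hemp : {x | ¬ ∀ S : Finset (Dir (d + 1)), Dn c δ S → ∀ W : Set (E (d + 1)),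
        MeasurableSet W → W ⊆ reg δ {j | x ∈ A j} ∩ closedBall (0 : E (d + 1)) R →
        Hit (c * δ ^ τ) δ S W →
          ENNReal.ofReal (min k1 (min k2 k3) * δ ^ (τ + γ + ε)) ≤ volume W} = ∅ := by
      rw [Set.eq_empty_iff_forall_notMem]
      intro x hx
      refine hx fun S hS W hW hWR hH => ?_
      have hWfin : volume W ≠ ⊤ := ne_top_of_le_ne_top measure_closedBall_lt_top.ne
        (measure_mono (hWR.trans inter_subset_right))
      refine hconcl W hWfin ?_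
      obtain ⟨e, he⟩ := hne S hS
      obtain ⟨a, ha⟩ := Hit.real hδ (by positivity) hWfin hH e he
      refine le_trans ?_ (ha.trans (measureReal_mono inter_subset_left hWfin))
      have h1 : δ₀ ^ (τ + d) ≤ δ ^ (τ + d) := Real.rpow_le_rpow hδ₀0.le hlt.le (by positivity)
      have h2 : δ ^ (τ + (d : ℝ)) = δ ^ τ * δ ^ d := by
        rw [Real.rpow_add hδ, Real.rpow_natCast]
      calc min k1 (min k2 k3) * δ ^ (τ + γ + ε) ≤ k3 * 1 := by gcongr
        _ = c * kap d * δ₀ ^ (τ + d) := by rw [hk3, mul_one]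
        _ ≤ c * kap d * δ ^ (τ + d) := by gcongr
        _ = _ := by rw [h2]; ring
    rw [hemp, measure_empty]
    exact zero_le
  have h10 : δ ≤ 1 / 10 := hle.trans (min_le_left _ _)
  have hCsδ : Cs * δ ≤ 1 := by
    have := hle.trans ((min_le_right _ _).trans (min_le_left _ _))
    rw [le_div_iff₀ (by linarith)] at this
    linarith
  have hδδ₁ : δ ≤ δ₁ := hle.trans ((min_le_right _ _).trans (min_le_right _ _))
  obtain ⟨L, L', K, cc, a, h1, h2, hK, ha, hac, h4, h5, h6, h7, h8, h9, h10'⟩ := hpar δ hδ h10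
  obtain ⟨F, hFc, hF⟩ := cells_fin (d + 1) R hR.le δ hδ hδ1.le
  obtain ⟨N1, hN1a, hN1b, hN1c⟩ := hnet {x | ‖x‖ ≤ R + 1} (fun x hx => hx) δ hδ hδ1
  obtain ⟨N2, hN2a, hN2b, hN2c⟩ := hnet {x | ‖x‖ = 1} (fun x hx => by
    have : ‖x‖ = 1 := hx
    linarith) δ hδ hδ1
  set pos : N1 × N2 → E (d + 1) := fun z => (z.1 : E (d + 1)) with hpos
  set dir : N1 × N2 → E (d + 1) := fun z => (z.2 : E (d + 1)) with hdir
  have hdir1 : ∀ z, ‖dir z‖ = 1 := fun z => hN2a _ z.2.2
  have hZ : (Fintype.card (N1 × N2) : ℝ) ≤ Real.exp a := by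
    refine le_trans ?_ h4
    rw [Fintype.card_prod, Fintype.card_coe, Fintype.card_coe]
    push_cast
    exact mul_le_mul hN1b hN2b (Nat.cast_nonneg _) (by positivity)
  have hprob := pass_prob P A hA.prod (δ ^ τ) hlam.le (fun j => (hA.prob j).le) F
    (UU δ pos dir) K cc a hZ ha hac
  refine le_trans (measure_mono ?_) (hprob.trans (ENNReal.ofReal_le_ofReal (by
    rw [one_mul]; exact h6)))
  intro x hx hpass
  refine hx fun S hS W hW hWR hH => ?_
  have hWfin : volume W ≠ ⊤ := ne_top_of_le_ne_top measure_closedBall_lt_top.ne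
    (measure_mono (hWR.trans inter_subset_right))
  refine hconcl W hWfin ?_
  set b : ℝ := c * δ ^ τ * kap d with hb
  have hb0 : 0 < b := by positivity
  have hSne := hne S hS
  have hMu : (S.card : ℝ) ≤ δ ^ (-((d : ℝ) + 1)) := by
    have e1 : δ ^ (-((d : ℝ) + 1)) = δ⁻¹ * (δ ^ d)⁻¹ := by
      rw [neg_add, Real.rpow_add hδ, Real.rpow_neg hδ.le, Real.rpow_natCast, Real.rpow_neg_one,
        mul_comm]
    rw [e1]
    refine (hsepc δ hδ hδ1 S hS.1).trans ?_
    have : Cs ≤ δ⁻¹ := by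
      rw [← one_div, le_div_iff₀ hδ]; exact hCsδ
    gcongr
  rcases lt_or_ge ((S.card : ℝ) * b * δ ^ d) (2 * volume.real W) with hbig | hsmall
  · have e1 : c * b ≤ S.card * b * δ ^ d := by
      have e2 : c ≤ S.card * δ ^ d := by
        have := hS.2
        rw [← div_eq_mul_inv, div_le_iff₀ hδd] at this
        exact this
      calc c * b ≤ (S.card * δ ^ d) * b := by gcongr
        _ = _ := by ring
    have e3 : δ ^ (τ + γ + ε) ≤ δ ^ τ :=
      Real.rpow_le_rpow_of_exponent_ge hδ hδ1.le (by linarith)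
    calc min k1 (min k2 k3) * δ ^ (τ + γ + ε) ≤ k2 * δ ^ τ := by gcongr
      _ = c * b / 2 := by rw [hk2, hb]; ring
      _ ≤ _ := by linarith
  · have hneg : ((L : ℝ) + 1) * (6 * cc * K) * δ ≤ b / 4 := by
      have e1 : ((L : ℝ) + 1) * (6 * cc * K) ≤ (C0 * δ ^ (-s)) * (6 * (C0 * δ ^ (-s)) *
          (C0 * δ ^ (-s))) := by
        have : 0 ≤ cc := by linarith
        gcongr
      have e2 : δ ^ (-s) * δ ^ (-s) * δ ^ (-s) * δ = δ ^ τ * δ ^ ((1 - τ) / 2) := by
        have e3 : δ ^ (-s) * δ ^ (-s) * δ ^ (-s) * δ ^ (1 : ℝ) = δ ^ τ * δ ^ ((1 - τ) / 2) := by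
          rw [← Real.rpow_add hδ, ← Real.rpow_add hδ, ← Real.rpow_add hδ, ← Real.rpow_add hδ]
          congr 1
          rw [hs]; ring
        rwa [Real.rpow_one] at e3
      have e4 : δ ^ ((1 - τ) / 2) ≤ c * kap d / (24 * C0 ^ 3) := by
        have e5 : δ ^ ((1 - τ) / 2) ≤ δ₁ ^ ((1 - τ) / 2) :=
          Real.rpow_le_rpow hδ.le hδδ₁ (by linarith)
        have e6 : δ₁ ^ ((1 - τ) / 2) = c * kap d / (24 * C0 ^ 3) := by
          rw [hδ₁, ← Real.rpow_mul (by positivity)]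
          have : 2 / (1 - τ) * ((1 - τ) / 2) = 1 := by
            have : 1 - τ ≠ 0 := by linarith
            field_simp
          rw [this, Real.rpow_one]
        rwa [e6] at e5
      calc ((L : ℝ) + 1) * (6 * cc * K) * δ ≤ (C0 * δ ^ (-s)) * (6 * (C0 * δ ^ (-s)) *
          (C0 * δ ^ (-s))) * δ := by gcongr
        _ = 6 * C0 ^ 3 * (δ ^ (-s) * δ ^ (-s) * δ ^ (-s) * δ) := by ring
        _ = 6 * C0 ^ 3 * (δ ^ τ * δ ^ ((1 - τ) / 2)) := by rw [e2]
        _ ≤ 6 * C0 ^ 3 * (δ ^ τ * (c * kap d / (24 * C0 ^ 3))) := by gcongr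
        _ = b / 4 := by rw [hb]; field_simp; norm_num
    obtain ⟨hGc, V, hVm, hVR, hV1, hV2⟩ := core hδ (by linarith) hR.le pos dir hdir1 G
      (fun a e he y hy => hG δ hδ hδ1.le a e he y hy) (fun a e ha he => by
        obtain ⟨y1, hy1, hy2⟩ := hN1c a ha
        obtain ⟨y3, hy3, hy4⟩ := hN2c e he
        exact ⟨(⟨y1, hy1⟩, ⟨y3, hy3⟩), hy2, hy4⟩) F {j | x ∈ A j} hF hK (by linarith) hlam
      hpass S hSne (lt_of_le_of_lt (by gcongr) h5) L (hMu.trans h1) W hW hWR hb0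
      (fun e he => Hit.real hδ (by positivity) hWfin hH e he) hsmall hneg
    have hGc' : (0 : ℝ) < G.card := by exact_mod_cast hGc
    have hGg : (G.card : ℝ) ≤ g := by rw [hg]; linarith
    have hβle : β ≤ b / (128 * Real.exp 2 * δ ^ τ * G.card) := by
      have e1 : b / (128 * Real.exp 2 * δ ^ τ * G.card) =
          c * kap d / (128 * Real.exp 2 * G.card) := by
        rw [hb]; field_simp
      rw [e1, hβ]
      gcongr
    set S' := S.filter fun e : Dir (d + 1) => ∃ a : E (d + 1),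
      b / (128 * Real.exp 2 * δ ^ τ * G.card) * δ ^ d ≤
        volume.real (V ∩ cyl (1 / 2) δ a (e : E (d + 1))) with hS'
    have hDn : Dn c2 δ S' := by
      refine ⟨fun e he e' he' => hS.1 e (Finset.mem_filter.1 he).1 e' (Finset.mem_filter.1 he').1,
        ?_⟩
      refine le_trans ?_ hV2
      calc c2 * (δ ^ d)⁻¹ ≤ (β / 2 ^ d * c) * (δ ^ d)⁻¹ := by
            gcongr
            exact min_le_left _ _
        _ = β / 2 ^ d * (c * (δ ^ d)⁻¹) := by ring
        _ ≤ β / 2 ^ d * S.card := by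
            gcongr
            exact hS.2
        _ ≤ _ := by gcongr
    have hVfin : volume V ≠ ⊤ :=
      ne_top_of_le_ne_top measure_closedBall_lt_top.ne (measure_mono hVR)
    have hHit : Hit c2 δ S' V := by
      intro e he
      obtain ⟨a', ha'⟩ := (Finset.mem_filter.1 he).2
      refine ⟨a', ?_⟩
      have e1 : volume (cyl (1 / 2) δ a' (e : E (d + 1))) ≤ ENNReal.ofReal (2 ^ d * δ ^ d) := by
        refine (vol_cyl_le (by norm_num) hδ.le (norm_eq_of_mem_sphere e)).trans (le_of_eq ?_)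
        congr 1
        rw [mul_pow]; ring
      calc ENNReal.ofReal c2 * volume (cyl (1 / 2) δ a' (e : E (d + 1)))
          ≤ ENNReal.ofReal (β / 2 ^ d) * ENNReal.ofReal (2 ^ d * δ ^ d) :=
            mul_le_mul' (ENNReal.ofReal_le_ofReal (min_le_right _ _)) e1
        _ = ENNReal.ofReal (β * δ ^ d) := by
            rw [← ENNReal.ofReal_mul (by positivity)]
            congr 1
            field_simp
        _ ≤ ENNReal.ofReal (volume.real (V ∩ cyl (1 / 2) δ a' (e : E (d + 1)))) := by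
            apply ENNReal.ofReal_le_ofReal
            refine le_trans ?_ ha'
            gcongr
        _ = _ := ENNReal.ofReal_toReal
            (ne_top_of_le_ne_top hVfin (measure_mono inter_subset_left))
    have h11 := hKD δ hδ hδ1 S' hDn V hVm hVR hHit
    rw [ENNReal.ofReal_le_iff_le_toReal hVfin] at h11
    have h12 : c1 * δ ^ (γ + ε) * b ≤ 16 * (g * 2 ^ d) * volume.real W := by
      calc c1 * δ ^ (γ + ε) * b ≤ volume.real V * b := mul_le_mul_of_nonneg_right h11 hb0.le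
        _ ≤ 16 * (G.card * 2 ^ d) * volume.real W := hV1
        _ ≤ _ := by gcongr
    have h13 : δ ^ (τ + γ + ε) = δ ^ τ * δ ^ (γ + ε) := by
      rw [← Real.rpow_add hδ]; congr 1; ring
    calc min k1 (min k2 k3) * δ ^ (τ + γ + ε) ≤ k1 * δ ^ (τ + γ + ε) := by gcongr
      _ = c1 * δ ^ (γ + ε) * b / (16 * (g * 2 ^ d)) := by rw [h13, hk1, hb]; ring
      _ ≤ _ := by
          rw [div_le_iff₀ (by positivity)]
          linarith

end Pool.Agent.N248.KS
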