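import Mathlib
import Pool.Agent.N248.KS.C
import Pool.Agent.N248.RL.D
set_option autoImplicit false

/-! Kakeya sets in sparse random regions: from random regions to the whole space. -/

namespace Pool.Agent.N248.KS

open MeasureTheory Set Metric ProbabilityTheory
open scoped ENNReal NNReal
open Pool.Agent.N248.KR Pool.Agent.N248.KG

variable {d : ℕ}

open scoped Classical in
theorem reg_real {n : ℕ} {δ R : ℝ} (hδ : 0 < δ) {Ω : Type} (A : (Fin n → ℤ) → Set Ω)
    (F : Finset (Fin n → ℤ)) (hF : ∀ x ∈ closedBall (0 : E n) R, ∀ j, x ∈ qc δ j → j ∈ F)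
    (D : Set (E n)) (hD : MeasurableSet D) (hDR : D ⊆ closedBall 0 R) (x : Ω) :
    volume.real (D ∩ reg δ {j | x ∈ A j}) =
      ∑ j ∈ F, volume.real (D ∩ qc δ j) * (A j).indicator (fun _ => (1 : ℝ)) x := by
  have hfin : volume D ≠ ⊤ :=
    ne_top_of_le_ne_top measure_closedBall_lt_top.ne (measure_mono hDR)
  have h1 : D ∩ reg δ {j | x ∈ A j} = ⋃ j ∈ F.filter (fun j => x ∈ A j), D ∩ qc δ j := by
    ext y
    simp only [reg, mem_inter_iff, mem_iUnion, exists_prop, Finset.mem_filter]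
    constructor
    · rintro ⟨h2, j, hj, hyj⟩
      exact ⟨j, ⟨hF y (hDR h2) j hyj, hj⟩, h2, hyj⟩
    · rintro ⟨j, ⟨_, hj⟩, h2, hyj⟩
      exact ⟨h2, j, hj, hyj⟩
  rw [h1, measureReal_biUnion_finset (fun j _ k _ h =>
    (qc_disj hδ j k h).mono inter_subset_right inter_subset_right)
    (fun j _ => hD.inter (qc_meas δ j)) fun j _ =>
      ne_top_of_le_ne_top hfin (measure_mono inter_subset_left), Finset.sum_filter]
  refine Finset.sum_congr rfl fun j _ => ?_
  by_cases h : x ∈ A j
  · rw [if_pos h, indicator_of_mem h, mul_one]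
  · rw [if_neg h, indicator_of_notMem h, mul_zero]

theorem low_tail {n : ℕ} {δ R lam : ℝ} (hδ : 0 < δ) (hδ1 : δ ≤ 1) (hR : 0 ≤ R) (hl : 0 < lam)
    {Ω : Type} [MeasurableSpace Ω] (P : Measure Ω) [IsProbabilityMeasure P]
    (A : (Fin n → ℤ) → Set Ω) (hA : RCells P A lam)
    (D : Set (E n)) (hD : MeasurableSet D) (hDR : D ⊆ closedBall 0 R)
    (hD0 : 0 < volume.real D) :
    P {x | volume.real (D ∩ reg δ {j | x ∈ A j}) < lam * volume.real D / 2} ≤
      ENNReal.ofReal (4 * δ ^ n / (lam * volume.real D)) := by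
  classical
  have hδn : 0 < δ ^ n := by positivity
  obtain ⟨F, -, hF⟩ := cells_fin n R hR δ hδ hδ1
  have hfin : volume D ≠ ⊤ :=
    ne_top_of_le_ne_top measure_closedBall_lt_top.ne (measure_mono hDR)
  set w : (Fin n → ℤ) → ℝ := fun j => volume.real (D ∩ qc δ j) / δ ^ n with hw
  have hreal : ∀ j, P.real (A j) = lam := by
    intro j
    unfold Measure.real
    rw [hA.prob, ENNReal.toReal_ofReal hl.le]
  have hsum : ∑ j ∈ F, volume.real (D ∩ qc δ j) = volume.real D := by
    have h1 : D = ⋃ j ∈ F, D ∩ qc δ j := by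
      ext y
      simp only [mem_iUnion, mem_inter_iff, exists_prop]
      constructor
      · intro hy
        obtain ⟨j, hj⟩ := cell_ex hδ y
        exact ⟨j, hF y (hDR hy) j hj, hy, hj⟩
      · rintro ⟨_, _, hy, _⟩
        exact hy
    conv_rhs => rw [h1]
    rw [measureReal_biUnion_finset (fun j _ k _ h =>
      (qc_disj hδ j k h).mono inter_subset_right inter_subset_right)
      (fun j _ => hD.inter (qc_meas δ j)) fun j _ =>
        ne_top_of_le_ne_top hfin (measure_mono inter_subset_left)]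
  have hmean : ∑ j ∈ F, w j * P.real (A j) = lam * volume.real D / δ ^ n := by
    simp_rw [hreal]
    rw [← Finset.sum_mul, hw]
    simp only
    rw [← Finset.sum_div, hsum]
    ring
  have hm := Pool.Agent.N248.RL.wmany P A hA.meas hA.indep F w
    (fun j => div_nonneg measureReal_nonneg hδn.le) (fun j => by
      rw [hw]
      simp only
      rw [div_le_one hδn, ← qc_real hδ j]
      refine measureReal_mono inter_subset_right ?_
      rw [qc_vol hδ]; exact ENNReal.ofReal_ne_top) (by rw [hmean]; positivity)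
  rw [hmean] at hm
  refine (measure_mono ?_).trans (hm.trans (ENNReal.ofReal_le_ofReal (le_of_eq ?_)))
  · intro x hx
    have hx' : volume.real (D ∩ reg δ {j | x ∈ A j}) < lam * volume.real D / 2 := hx
    show ∑ j ∈ F, w j * (A j).indicator (fun _ => (1 : ℝ)) x < lam * volume.real D / δ ^ n / 2
    have h1 : ∑ j ∈ F, w j * (A j).indicator (fun _ => (1 : ℝ)) x =
        volume.real (D ∩ reg δ {j | x ∈ A j}) / δ ^ n := by
      rw [reg_real hδ A F hF D hD hDR x, Finset.sum_div]
      refine Finset.sum_congr rfl fun j _ => ?_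
      rw [hw]
      ring
    rw [h1, div_right_comm]
    exact div_lt_div_of_pos_right hx' hδn
  · field_simp

theorem regV {n : ℕ} {δ : ℝ} {Ω : Type} (A : (Fin n → ℤ) → Set Ω) (D : Set (E n))
    (hD : MeasurableSet D) (x : Ω) :
    volume (D ∩ reg δ {j | x ∈ A j}) = ∫⁻ y in reg δ {j | x ∈ A j}, D.indicator 1 y := by
  rw [lintegral_indicator_one hD, Measure.restrict_apply hD]

theorem regVm {n : ℕ} {δ : ℝ} (hδ : 0 < δ) {Ω : Type} [MeasurableSpace Ω]
    (A : (Fin n → ℤ) → Set Ω) (hAm : ∀ j, MeasurableSet (A j)) (D : Set (E n))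
    (hD : MeasurableSet D) : Measurable fun x => volume (D ∩ reg δ {j | x ∈ A j}) := by
  simp_rw [regV A D hD]
  exact regM hδ A hAm _

/-- **from random regions to the whole space** -/
theorem bwd {τ γ : ℝ} (hτ : 0 ≤ τ) (hτ1 : τ < 1) (hγ : 0 ≤ γ) (h : RKD d τ γ) :
    KD d γ := by
  classical
  intro c ε R hc hε hR
  have hκ := kap_pos d
  have hd0 : (0 : ℝ) ≤ d := Nat.cast_nonneg d
  obtain ⟨c1, C1, hc1, hC1, hRKD⟩ := h (c / 2) ε R 1 (by linarith) hε hR one_pos
  set δ₁ : ℝ := (c * kap d / 64) ^ (1 / (1 - τ)) with hδ₁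
  have hδ₁0 : 0 < δ₁ := by positivity
  set δ₀ : ℝ := min (1 / 10) (min (1 / (8 * C1)) δ₁) with hδ₀
  have hδ₀0 : 0 < δ₀ := lt_min (by norm_num) (lt_min (by positivity) hδ₁0)
  refine ⟨min (c1 / 4) (c * kap d * δ₀ ^ d), lt_min (by positivity) (by positivity), ?_⟩
  intro δ hδ hδ1 S hS W hW hWR hH
  have hδd : 0 < δ ^ d := by positivity
  have hWfin : volume W ≠ ⊤ :=
    ne_top_of_le_ne_top measure_closedBall_lt_top.ne (measure_mono hWR)
  rw [ENNReal.ofReal_le_iff_le_toReal hWfin]
  have hSne : S.Nonempty := by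
    rw [← Finset.card_pos]
    have h2 : 0 < c * (δ ^ d)⁻¹ := by positivity
    exact_mod_cast h2.trans_le hS.2
  have hM0 : (0 : ℝ) < S.card := by exact_mod_cast hSne.card_pos
  have hw1 : c * kap d * δ ^ d ≤ volume.real W := by
    obtain ⟨e, he⟩ := hSne
    obtain ⟨a, ha⟩ := Hit.real hδ hc hWfin hH e he
    exact ha.trans (measureReal_mono inter_subset_left hWfin)
  have hw0 : 0 < volume.real W := lt_of_lt_of_le (by positivity) hw1
  have hpow : δ ^ (γ + ε) ≤ 1 := Real.rpow_le_one hδ.le hδ1.le (by linarith)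
  have hpow0 : 0 < δ ^ (γ + ε) := by positivity
  rcases lt_or_ge δ₀ δ with hlt | hle
  · refine le_trans ?_ hw1
    calc min (c1 / 4) (c * kap d * δ₀ ^ d) * δ ^ (γ + ε) ≤ (c * kap d * δ₀ ^ d) * 1 := by
          gcongr
          exact min_le_right _ _
      _ ≤ _ := by rw [mul_one]; gcongr
  have h10 : δ ≤ 1 / 10 := hle.trans (min_le_left _ _)
  have hC1δ : C1 * δ ≤ 1 / 8 := by
    have := hle.trans ((min_le_right _ _).trans (min_le_left _ _))
    rw [le_div_iff₀ (by linarith)] at this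
    linarith
  have hδδ₁ : δ ≤ δ₁ := hle.trans ((min_le_right _ _).trans (min_le_right _ _))
  set lam : ℝ := δ ^ τ with hlam
  have hl0 : 0 < lam := by positivity
  have hl1 : lam ≤ 1 := Real.rpow_le_one hδ.le hδ1.le hτ
  obtain ⟨Ω, mΩ, P, hP, A, hA⟩ := exists_cells (d + 1) lam hl0.le hl1
  have hex : ∀ e : Dir (d + 1), ∃ a : E (d + 1), e ∈ S →
      ENNReal.ofReal c * volume (cyl (1 / 2) δ a (e : E (d + 1))) ≤
        volume (W ∩ cyl (1 / 2) δ a (e : E (d + 1))) := by
    intro e
    by_cases he : e ∈ S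
    · obtain ⟨a, ha⟩ := hH e he
      exact ⟨a, fun _ => ha⟩
    · exact ⟨0, fun h => absurd h he⟩
  choose a ha using hex
  set D : Dir (d + 1) → Set (E (d + 1)) := fun e => W ∩ cyl (1 / 2) δ (a e) (e : E (d + 1)) with hD
  have hDm : ∀ e, MeasurableSet (D e) := fun e => hW.inter (cyl_meas _ _ _ _)
  have hDR : ∀ e, D e ⊆ closedBall 0 R := fun e => inter_subset_left.trans hWR
  have hDv : ∀ e ∈ S, c * kap d * δ ^ d ≤ volume.real (D e) := by
    intro e he
    have h1 : ENNReal.ofReal (kap d * δ ^ d) ≤ volume (cyl (1 / 2) δ (a e) (e : E (d + 1))) :=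
      vol_cyl_ge hδ (norm_eq_of_mem_sphere e)
    have h2 : ENNReal.ofReal (c * kap d * δ ^ d) ≤ volume (D e) := by
      refine le_trans ?_ (ha e he)
      rw [mul_assoc, ENNReal.ofReal_mul hc.le]
      gcongr
    unfold Measure.real
    rwa [← ENNReal.ofReal_le_iff_le_toReal
      (ne_top_of_le_ne_top hWfin (measure_mono inter_subset_left))]
  set fl : Dir (d + 1) → Set Ω := fun e =>
    {x | volume.real (D e ∩ reg δ {j | x ∈ A j}) < lam * volume.real (D e) / 2} with hfl
  have hflm : ∀ e, MeasurableSet (fl e) := fun e =>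
    measurableSet_lt (regVm hδ A hA.meas (D e) (hDm e)).ennreal_toReal measurable_const
  have hflp : ∀ e ∈ S, P (fl e) ≤ ENNReal.ofReal (1 / 16) := by
    intro e he
    have h0 : 0 < c * kap d * δ ^ d := by positivity
    refine (low_tail hδ hδ1.le hR.le hl0 P A hA (D e) (hDm e) (hDR e)
      (h0.trans_le (hDv e he))).trans (ENNReal.ofReal_le_ofReal ?_)
    have e1 : δ ^ (1 - τ) ≤ c * kap d / 64 := by
      have e5 : δ ^ (1 - τ) ≤ δ₁ ^ (1 - τ) := Real.rpow_le_rpow hδ.le hδδ₁ (by linarith)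
      have e6 : δ₁ ^ (1 - τ) = c * kap d / 64 := by
        rw [hδ₁, ← Real.rpow_mul (by positivity)]
        have : 1 / (1 - τ) * (1 - τ) = 1 := by
          have : 1 - τ ≠ 0 := by linarith
          field_simp
        rw [this, Real.rpow_one]
      rwa [e6] at e5
    have e2 : δ = δ ^ (1 - τ) * lam := by
      rw [hlam, ← Real.rpow_add hδ, show 1 - τ + τ = 1 by ring, Real.rpow_one]
    have hD0 : 0 < volume.real (D e) := h0.trans_le (hDv e he)
    rw [div_le_iff₀ (by positivity)]
    calc 4 * δ ^ (d + 1) = 4 * δ ^ d * δ := by rw [pow_succ]; ring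
      _ = 4 * δ ^ d * (δ ^ (1 - τ) * lam) := by rw [← e2]
      _ ≤ 4 * δ ^ d * ((c * kap d / 64) * lam) := by gcongr
      _ = 1 / 16 * (lam * (c * kap d * δ ^ d)) := by ring
      _ ≤ _ := by
          gcongr
          exact hDv e he
  -- the three bad events
  set E1 : Set Ω := {x | ¬ ∀ S : Finset (Dir (d + 1)), Dn (c / 2) δ S → ∀ W : Set (E (d + 1)),
    MeasurableSet W → W ⊆ reg δ {j | x ∈ A j} ∩ closedBall (0 : E (d + 1)) R →
      Hit (c / 2 * δ ^ τ) δ S W → ENNReal.ofReal (c1 * δ ^ (τ + γ + ε)) ≤ volume W} with hE1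
  have hP1 : P E1 ≤ ENNReal.ofReal (1 / 8) := by
    refine (hRKD δ hδ hδ1 Ω P A hA).trans (ENNReal.ofReal_le_ofReal ?_)
    rw [Real.rpow_one]
    exact hC1δ
  set E2 : Set Ω := {x | ENNReal.ofReal (4 * (lam * volume.real W)) ≤
    volume (W ∩ reg δ {j | x ∈ A j})} with hE2
  have hP2 : P E2 ≤ ENNReal.ofReal (1 / 4) := by
    have h1 := meas_ge_le_lintegral_div (μ := P)
      (f := fun x => volume (W ∩ reg δ {j | x ∈ A j}))
      (regVm hδ A hA.meas W hW).aemeasurable
      (ε := ENNReal.ofReal (4 * (lam * volume.real W)))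
      (by rw [ne_eq, ENNReal.ofReal_eq_zero, not_le]; positivity) ENNReal.ofReal_ne_top
    refine h1.trans ?_
    simp_rw [regV A W hW]
    rw [regE hδ P A hA.meas hA.prob, lintegral_indicator_one hW]
    have h2 : volume W = ENNReal.ofReal (volume.real W) := (ENNReal.ofReal_toReal hWfin).symm
    rw [h2, ← ENNReal.ofReal_mul hl0.le, ← ENNReal.ofReal_div_of_pos (by positivity)]
    refine ENNReal.ofReal_le_ofReal (le_of_eq ?_)
    field_simp
  set E3 : Set Ω := {x | ENNReal.ofReal (S.card / 2) ≤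
    ∑ e ∈ S, (fl e).indicator (fun _ => (1 : ℝ≥0∞)) x} with hE3
  have hP3 : P E3 ≤ ENNReal.ofReal (1 / 8) := by
    have h1 := meas_ge_le_lintegral_div (μ := P)
      (f := fun x => ∑ e ∈ S, (fl e).indicator (fun _ => (1 : ℝ≥0∞)) x)
      (Finset.measurable_fun_sum _ fun e _ => measurable_const.indicator (hflm e)).aemeasurable
      (ε := ENNReal.ofReal (S.card / 2))
      (by rw [ne_eq, ENNReal.ofReal_eq_zero, not_le]; positivity) ENNReal.ofReal_ne_top
    refine h1.trans ?_
    rw [lintegral_finsetSum _ fun e _ => measurable_const.indicator (hflm e)]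
    have h2 : ∑ e ∈ S, ∫⁻ x, (fl e).indicator (fun _ => (1 : ℝ≥0∞)) x ∂P ≤
        ENNReal.ofReal (S.card * (1 / 16)) := by
      calc ∑ e ∈ S, ∫⁻ x, (fl e).indicator (fun _ => (1 : ℝ≥0∞)) x ∂P
          ≤ ∑ _e ∈ S, ENNReal.ofReal (1 / 16) := by
            refine Finset.sum_le_sum fun e he => ?_
            rw [lintegral_indicator_const (hflm e), one_mul]
            exact hflp e he
        _ = _ := by
            rw [Finset.sum_const, nsmul_eq_mul, ENNReal.ofReal_mul hM0.le,
              ENNReal.ofReal_natCast]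
    calc _ ≤ ENNReal.ofReal (S.card * (1 / 16)) / ENNReal.ofReal (S.card / 2) := by gcongr
      _ = ENNReal.ofReal (1 / 8) := by
          rw [← ENNReal.ofReal_div_of_pos (by positivity)]
          congr 1
          field_simp
          norm_num
  have hgood : ∃ x, x ∉ E1 ∧ x ∉ E2 ∧ x ∉ E3 := by
    by_contra hcon
    push Not at hcon
    have h1 : (univ : Set Ω) ⊆ E1 ∪ (E2 ∪ E3) := by
      intro x _
      by_cases h1 : x ∈ E1
      · exact Or.inl h1
      · by_cases h2 : x ∈ E2
        · exact Or.inr (Or.inl h2)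
        · exact Or.inr (Or.inr (hcon x h1 h2))
    have h2 : (1 : ℝ≥0∞) ≤ ENNReal.ofReal (1 / 2) := by
      calc (1 : ℝ≥0∞) = P univ := measure_univ.symm
        _ ≤ P (E1 ∪ (E2 ∪ E3)) := measure_mono h1
        _ ≤ P E1 + (P E2 + P E3) := (measure_union_le _ _).trans
            (add_le_add le_rfl (measure_union_le _ _))
        _ ≤ ENNReal.ofReal (1 / 8) + (ENNReal.ofReal (1 / 4) + ENNReal.ofReal (1 / 8)) :=
            add_le_add hP1 (add_le_add hP2 hP3)
        _ = ENNReal.ofReal (1 / 2) := by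
            rw [← ENNReal.ofReal_add (by norm_num) (by norm_num),
              ← ENNReal.ofReal_add (by norm_num) (by norm_num)]
            congr 1
            norm_num
    rw [← ENNReal.ofReal_one, ENNReal.ofReal_le_ofReal_iff (by norm_num)] at h2
    norm_num at h2
  obtain ⟨x, hx1, hx2, hx3⟩ := hgood
  have hx1' : ∀ S : Finset (Dir (d + 1)), Dn (c / 2) δ S → ∀ W : Set (E (d + 1)),
      MeasurableSet W → W ⊆ reg δ {j | x ∈ A j} ∩ closedBall (0 : E (d + 1)) R →
      Hit (c / 2 * δ ^ τ) δ S W → ENNReal.ofReal (c1 * δ ^ (τ + γ + ε)) ≤ volume W := by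
    by_contra hcon
    exact hx1 hcon
  have hx2' : volume (W ∩ reg δ {j | x ∈ A j}) < ENNReal.ofReal (4 * (lam * volume.real W)) := by
    by_contra hcon
    push Not at hcon
    exact hx2 hcon
  have hx3' : ∑ e ∈ S, (fl e).indicator (fun _ => (1 : ℝ≥0∞)) x < ENNReal.ofReal (S.card / 2) := by
    by_contra hcon
    push Not at hcon
    exact hx3 hcon
  set S' := S.filter (fun e => x ∉ fl e) with hS'
  have hcard : (S.card : ℝ) / 2 ≤ S'.card := by
    have h1 : ∑ e ∈ S, (fl e).indicator (fun _ => (1 : ℝ≥0∞)) x =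
        ((S.filter (fun e => x ∈ fl e)).card : ℝ≥0∞) := by
      rw [← Finset.sum_boole]
      refine Finset.sum_congr rfl fun e _ => ?_
      by_cases h : x ∈ fl e
      · rw [indicator_of_mem h, if_pos h]
      · rw [indicator_of_notMem h, if_neg h]
    rw [h1, ← ENNReal.ofReal_natCast, ENNReal.ofReal_lt_ofReal_iff (by positivity)] at hx3'
    have h2 : (S.filter (fun e => x ∈ fl e)).card + S'.card = S.card :=
      Finset.card_filter_add_card_filter_not _
    have h3 : ((S.filter (fun e => x ∈ fl e)).card : ℝ) + S'.card = S.card := by exact_mod_cast h2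
    linarith
  have hDn : Dn (c / 2) δ S' := by
    refine ⟨fun e he e' he' => hS.1 e (Finset.mem_filter.1 he).1 e' (Finset.mem_filter.1 he').1,
      ?_⟩
    refine le_trans ?_ hcard
    have := hS.2
    linarith
  have hHit : Hit (c / 2 * δ ^ τ) δ S' (W ∩ reg δ {j | x ∈ A j}) := by
    intro e he
    obtain ⟨he1, he2⟩ := Finset.mem_filter.1 he
    refine ⟨a e, ?_⟩
    have h1 : lam * volume.real (D e) / 2 ≤ volume.real (D e ∩ reg δ {j | x ∈ A j}) := by
      by_contra hcon
      push Not at hcon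
      exact he2 hcon
    have h2 : W ∩ reg δ {j | x ∈ A j} ∩ cyl (1 / 2) δ (a e) (e : E (d + 1)) =
        D e ∩ reg δ {j | x ∈ A j} := by
      rw [hD]
      exact inter_right_comm _ _ _
    rw [h2]
    have hf1 : volume (D e) ≠ ⊤ := ne_top_of_le_ne_top hWfin (measure_mono inter_subset_left)
    have hf2 : volume (D e ∩ reg δ {j | x ∈ A j}) ≠ ⊤ :=
      ne_top_of_le_ne_top hf1 (measure_mono inter_subset_left)
    calc ENNReal.ofReal (c / 2 * δ ^ τ) * volume (cyl (1 / 2) δ (a e) (e : E (d + 1)))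
        = ENNReal.ofReal (lam / 2) *
          (ENNReal.ofReal c * volume (cyl (1 / 2) δ (a e) (e : E (d + 1)))) := by
          rw [← mul_assoc, ← ENNReal.ofReal_mul (by positivity)]
          congr 2
          rw [hlam]; ring
      _ ≤ ENNReal.ofReal (lam / 2) * volume (D e) := mul_le_mul' le_rfl (ha e he1)
      _ = ENNReal.ofReal (lam / 2) * ENNReal.ofReal (volume.real (D e)) := by
          congr 1
          exact (ENNReal.ofReal_toReal hf1).symm
      _ = ENNReal.ofReal (lam * volume.real (D e) / 2) := by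
          rw [← ENNReal.ofReal_mul (by positivity)]
          congr 1; ring
      _ ≤ ENNReal.ofReal (volume.real (D e ∩ reg δ {j | x ∈ A j})) := ENNReal.ofReal_le_ofReal h1
      _ = _ := ENNReal.ofReal_toReal hf2
  have h20 := hx1' S' hDn (W ∩ reg δ {j | x ∈ A j}) (hW.inter (reg_meas _ _))
    (fun y hy => ⟨hy.2, hWR hy.1⟩) hHit
  have h21 := h20.trans hx2'.le
  rw [ENNReal.ofReal_le_ofReal_iff (by positivity)] at h21
  have h22 : δ ^ (τ + γ + ε) = lam * δ ^ (γ + ε) := by
    rw [hlam, ← Real.rpow_add hδ]; congr 1; ring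
  rw [h22] at h21
  have h23 : lam * (c1 / 4 * δ ^ (γ + ε)) ≤ lam * volume.real W := by linarith
  have h24 := le_of_mul_le_mul_left h23 hl0
  calc min (c1 / 4) (c * kap d * δ₀ ^ d) * δ ^ (γ + ε) ≤ c1 / 4 * δ ^ (γ + ε) := by
        gcongr
        exact min_le_left _ _
    _ ≤ _ := h24

end Pool.Agent.N248.KS
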