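import Mathlib
import Pool.Agent.N248.KS.D
set_option autoImplicit false

/-! Kakeya sets in sparse random regions: maximal inequalities and Kakeya sets. -/

namespace Pool.Agent.N248.KS

open MeasureTheory Set Metric ProbabilityTheory
open scoped ENNReal NNReal
open Pool.Agent.N248.KR Pool.Agent.N248.KG

variable {d : ℕ}

/-- the Kakeya bound from a maximal inequality -/
theorem KD_of_KB (hd : 1 ≤ d) {p γ : ℝ} (hp : 1 < p) (hγ : 0 ≤ γ) (h : KB d (Pu d) p γ) :
    KD d γ := by
  intro c ε R hc hε hR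
  have hκ := kap_pos d
  have hp0 : 0 < p := by linarith
  obtain ⟨Ca, hCa, hsi⟩ := sum_le_int d hd hp0
  obtain ⟨C1, hC1, hKB⟩ := h ε hε
  have hk1 : 0 < c ^ (p + 1) / (Ca * C1) := by positivity
  have hk2 : 0 < c * kap d * (1 / 5) ^ d := by positivity
  refine ⟨min (c ^ (p + 1) / (Ca * C1)) (c * kap d * (1 / 5) ^ d), lt_min hk1 hk2, ?_⟩
  intro δ hδ hδ1 S hS W hW hWR hH
  have hδd : 0 < δ ^ d := by positivity
  have hWfin : volume W ≠ ⊤ :=
    ne_top_of_le_ne_top measure_closedBall_lt_top.ne (measure_mono hWR)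
  rw [ENNReal.ofReal_le_iff_le_toReal hWfin]
  have hSne : S.Nonempty := by
    rw [← Finset.card_pos]
    have h2 : 0 < c * (δ ^ d)⁻¹ := by positivity
    exact_mod_cast h2.trans_le hS.2
  have hpow : δ ^ (γ + ε) ≤ 1 := Real.rpow_le_one hδ.le hδ1.le (by linarith)
  have hpow0 : 0 < δ ^ (γ + ε) := by positivity
  rcases lt_or_ge (1 / 5) δ with hlt | hle
  · obtain ⟨e, he⟩ := hSne
    obtain ⟨a, ha⟩ := Hit.real hδ hc hWfin hH e he
    refine le_trans ?_ (ha.trans (measureReal_mono inter_subset_left hWfin))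
    calc min (c ^ (p + 1) / (Ca * C1)) (c * kap d * (1 / 5) ^ d) * δ ^ (γ + ε)
        ≤ (c * kap d * (1 / 5) ^ d) * 1 := by
          gcongr
          exact min_le_right _ _
      _ ≤ _ := by rw [mul_one]; gcongr
  set ω : Fin S.card → Dir (d + 1) := fun i => (S.equivFin.symm i : Dir (d + 1)) with hω
  have hsep : ∀ i j, i ≠ j → δ / 2 < ‖(ω i : E (d + 1)) - (ω j : E (d + 1))‖ := by
    intro i j hij
    have h1 := hS.1 (ω i) (S.equivFin.symm i).2 (ω j) (S.equivFin.symm j).2 fun h2 => hij (by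
      exact S.equivFin.symm.injective (Subtype.ext h2))
    linarith
  set f : E (d + 1) → ℝ≥0∞ := W.indicator 1 with hf
  have hk : ∀ i, ENNReal.ofReal c ≤ kmax δ f (ω i) := by
    intro i
    obtain ⟨a, ha⟩ := hH (ω i) (S.equivFin.symm i).2
    obtain ⟨h0, htt⟩ := vol_ne (d := d) hδ (a := a) (norm_eq_of_mem_sphere (ω i))
    unfold kmax
    refine le_trans ?_ (le_iSup _ a)
    rw [hf, lintegral_indicator_one hW, Measure.restrict_apply hW]
    calc ENNReal.ofReal c = (volume (cyl (1 / 2) δ a (ω i : E (d + 1))))⁻¹ *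
          (ENNReal.ofReal c * volume (cyl (1 / 2) δ a (ω i : E (d + 1)))) := by
          rw [mul_comm (ENNReal.ofReal c), ← mul_assoc, ENNReal.inv_mul_cancel h0 htt, one_mul]
      _ ≤ _ := mul_le_mul' le_rfl ha
  have h1 := hsi δ hδ hle S.card ω hsep f
  have h2 := hKB δ hδ hδ1 f (aemeasurable_one.indicator hW)
  have h3 : ∫⁻ y, f y ^ p = volume W := by
    have h4 : ∀ y, f y ^ p = W.indicator 1 y := by
      intro y
      rw [hf]
      by_cases hy : y ∈ W
      · rw [indicator_of_mem hy, Pi.one_apply, ENNReal.one_rpow]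
      · rw [indicator_of_notMem hy, ENNReal.zero_rpow_of_pos hp0]
    rw [lintegral_congr h4, lintegral_indicator_one hW]
  rw [h3] at h2
  have h5 : ENNReal.ofReal (c ^ (p + 1)) ≤
      ENNReal.ofReal (Ca * (C1 * δ ^ (-γ - ε)) * volume.real W) := by
    have hWr : volume W = ENNReal.ofReal (volume.real W) := (ENNReal.ofReal_toReal hWfin).symm
    calc ENNReal.ofReal (c ^ (p + 1)) ≤ ENNReal.ofReal (δ ^ d * (S.card * c ^ p)) := by
          apply ENNReal.ofReal_le_ofReal
          have e2 : c ≤ S.card * δ ^ d := by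
            have := hS.2
            rw [← div_eq_mul_inv, div_le_iff₀ hδd] at this
            exact this
          calc c ^ (p + 1) = c * c ^ p := by rw [Real.rpow_add_one hc.ne']; ring
            _ ≤ (S.card * δ ^ d) * c ^ p := by gcongr
            _ = _ := by ring
      _ = ENNReal.ofReal (δ ^ d) * ∑ _i : Fin S.card, ENNReal.ofReal (c ^ p) := by
          rw [Finset.sum_const, Finset.card_univ, Fintype.card_fin, nsmul_eq_mul,
            ENNReal.ofReal_mul hδd.le, ENNReal.ofReal_mul (Nat.cast_nonneg _),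
            ENNReal.ofReal_natCast]
      _ ≤ ENNReal.ofReal (δ ^ d) * ∑ i, kmax δ f (ω i) ^ p := by
          gcongr with i
          rw [← ENNReal.ofReal_rpow_of_nonneg hc.le hp0.le]
          gcongr
          exact hk i
      _ ≤ ENNReal.ofReal Ca * ∫⁻ θ : Dir (d + 1), kmax δ f θ ^ p ∂(Pu d) := h1
      _ ≤ ENNReal.ofReal Ca * (ENNReal.ofReal (C1 * δ ^ (-γ - ε)) * volume W) :=
          mul_le_mul' le_rfl h2
      _ = _ := by
          rw [hWr, ← ENNReal.ofReal_mul (by positivity), ← ENNReal.ofReal_mul (by positivity)]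
          congr 1
          ring
  rw [ENNReal.ofReal_le_ofReal_iff (by
    have : 0 ≤ volume.real W := measureReal_nonneg
    positivity)] at h5
  have h6 : δ ^ (-γ - ε) * δ ^ (γ + ε) = 1 := by
    rw [← Real.rpow_add hδ, show -γ - ε + (γ + ε) = 0 by ring, Real.rpow_zero]
  calc min (c ^ (p + 1) / (Ca * C1)) (c * kap d * (1 / 5) ^ d) * δ ^ (γ + ε)
      ≤ (c ^ (p + 1) / (Ca * C1)) * δ ^ (γ + ε) := by
        gcongr
        exact min_le_left _ _
    _ ≤ (Ca * (C1 * δ ^ (-γ - ε)) * volume.real W / (Ca * C1)) * δ ^ (γ + ε) := by gcongr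
    _ = (δ ^ (-γ - ε) * δ ^ (γ + ε)) * volume.real W := by
        have : Ca ≠ 0 := by positivity
        field_simp
    _ = _ := by rw [h6, one_mul]; rfl

/-- separated families of directions -/
theorem ex_dirs (hd : 1 ≤ d) : ∃ c : ℝ, 0 < c ∧ c ≤ 1 ∧ ∀ δ : ℝ, 0 < δ → δ < 1 / 2 →
    ∃ S : Finset (Dir (d + 1)), Dn c δ S := by
  classical
  obtain ⟨Cn, hCn, hnet⟩ := sph_net d hd
  obtain ⟨c, C, hc, hC, hcap⟩ := capB d hd
  refine ⟨min 1 (min (1 / 4) (1 / (C * 4 ^ d)) / 2 ^ 0 * (1 / 4) ^ d), ?_, min_le_left _ _, ?_⟩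
  · refine lt_min one_pos ?_
    have : 0 < min (1 / 4 : ℝ) (1 / (C * 4 ^ d)) := lt_min (by norm_num) (by positivity)
    positivity
  intro δ hδ hδ2
  obtain ⟨M, ω, -, hcov, hsep⟩ := hnet (2 * δ) (by linarith) (by linarith)
  have hinj : Function.Injective ω := by
    intro i j hij
    by_contra hne
    have := hsep i j hne
    rw [hij, sub_self, norm_zero] at this
    linarith
  refine ⟨Finset.univ.image ω, ?_, ?_⟩
  · intro e he e' he' hne
    obtain ⟨i, -, rfl⟩ := Finset.mem_image.1 he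
    obtain ⟨j, -, rfl⟩ := Finset.mem_image.1 he'
    have := hsep i j fun h => hne (by rw [h])
    linarith
  · rw [Finset.card_image_of_injective _ hinj, Finset.card_univ, Fintype.card_fin]
    have hδd : 0 < δ ^ d := by positivity
    have hMc : min (1 / 4 : ℝ) (1 / (C * 4 ^ d)) * (1 / 4) ^ d ≤ M * δ ^ d := by
      rcases le_or_gt δ (1 / 4) with h4 | h4
      · have huniv : (univ : Set (Dir (d + 1))) ⊆ ⋃ i, cp (ω i) (4 * δ) := by
          intro θ _
          rw [mem_iUnion]
          obtain ⟨i, hi⟩ := hcov θ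
          refine ⟨i, ?_⟩
          show ‖(ω i : E (d + 1)) - (θ : E (d + 1))‖ < 4 * δ
          linarith
        have h1 : (1 : ℝ≥0∞) ≤ ENNReal.ofReal (M * (C * (4 * δ) ^ d)) := by
          calc (1 : ℝ≥0∞) = Pu d univ := measure_univ.symm
            _ ≤ Pu d (⋃ i, cp (ω i) (4 * δ)) := measure_mono huniv
            _ ≤ ∑' i, Pu d (cp (ω i) (4 * δ)) := measure_iUnion_le _
            _ = ∑ i, Pu d (cp (ω i) (4 * δ)) := tsum_fintype _
            _ ≤ ∑ _i : Fin M, ENNReal.ofReal (C * (4 * δ) ^ d) :=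
                Finset.sum_le_sum fun i _ => (hcap (4 * δ) (by linarith) (by linarith) (ω i)).2
            _ = _ := by
                rw [Finset.sum_const, Finset.card_univ, Fintype.card_fin, nsmul_eq_mul,
                  ENNReal.ofReal_mul (Nat.cast_nonneg _), ENNReal.ofReal_natCast]
        rw [← ENNReal.ofReal_one, ENNReal.ofReal_le_ofReal_iff (by positivity), mul_pow] at h1
        have h2 : 1 / (C * 4 ^ d) ≤ M * δ ^ d := by
          rw [div_le_iff₀ (by positivity)]
          linarith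
        have h3 : (1 / 4 : ℝ) ^ d ≤ 1 := pow_le_one₀ (by norm_num) (by norm_num)
        have h5 : 0 ≤ min (1 / 4 : ℝ) (1 / (C * 4 ^ d)) := le_min (by norm_num) (by positivity)
        calc min (1 / 4 : ℝ) (1 / (C * 4 ^ d)) * (1 / 4) ^ d
            ≤ (1 / (C * 4 ^ d)) * 1 := by
              gcongr
              exact min_le_right _ _
          _ ≤ _ := by rw [mul_one]; exact h2
      · have hM1 : (1 : ℝ) ≤ M := by
          obtain ⟨i, -⟩ := hcov ⟨EuclideanSpace.single 0 1, by simp⟩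
          have := i.pos
          exact_mod_cast this
        calc min (1 / 4 : ℝ) (1 / (C * 4 ^ d)) * (1 / 4) ^ d ≤ 1 * (1 / 4) ^ d := by
              gcongr
              exact (min_le_left _ _).trans (by norm_num)
          _ ≤ M * δ ^ d := by gcongr
    rw [← div_eq_mul_inv, div_le_iff₀ hδd]
    refine (min_le_right _ _).trans ?_
    rw [pow_zero, div_one]
    exact hMc

/-- **Kakeya sets** -/
theorem kakeya (hd : 1 ≤ d) {γ : ℝ} (h : KD d γ) (K : Set (E (d + 1))) (R : ℝ)
    (hKR : K ⊆ closedBall 0 R)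
    (hK : ∀ e : E (d + 1), ‖e‖ = 1 → ∃ a : E (d + 1), ∀ t ∈ Icc (0 : ℝ) 1, a + t • e ∈ K)
    (ε : ℝ) (hε : 0 < ε) :
    ∃ c : ℝ, 0 < c ∧ ∀ δ : ℝ, 0 < δ → δ < 1 →
      ENNReal.ofReal (c * δ ^ (γ + ε)) ≤ volume (thickening δ K) := by
  obtain ⟨c0, hc0, hc01, hS⟩ := ex_dirs hd
  obtain ⟨c1, hc1, hKD⟩ := h c0 ε (|R| + 1) hc0 hε (by positivity)
  refine ⟨c1 * (1 / 2) ^ (γ + ε), by positivity, ?_⟩
  intro δ hδ hδ1
  obtain ⟨S, hS⟩ := hS (δ / 2) (by linarith) (by linarith)
  have h1 := hKD (δ / 2) (by linarith) (by linarith) S hS (thickening δ K)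
    isOpen_thickening.measurableSet ?_ ?_
  · refine le_trans (le_of_eq ?_) h1
    congr 1
    rw [mul_assoc, ← Real.mul_rpow (by norm_num) hδ.le]
    congr 2
    ring
  · intro y hy
    obtain ⟨z, hz, hyz⟩ := mem_thickening_iff.1 hy
    have h2 := hKR hz
    rw [mem_closedBall_zero_iff] at h2 ⊢
    rw [dist_eq_norm] at hyz
    have h3 : ‖y‖ ≤ ‖y - z‖ + ‖z‖ := by
      have : y = (y - z) + z := by abel
      conv_lhs => rw [this]
      exact norm_add_le _ _
    have := le_abs_self R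
    linarith
  · intro e _
    obtain ⟨a, ha⟩ := hK e (norm_eq_of_mem_sphere e)
    refine ⟨a + (1 / 2 : ℝ) • (e : E (d + 1)), ?_⟩
    have h2 : cyl (1 / 2) (δ / 2) (a + (1 / 2 : ℝ) • (e : E (d + 1))) (e : E (d + 1)) ⊆
        thickening δ K := by
      rintro y ⟨hy1, hy2⟩
      set s : ℝ := inner ℝ (y - (a + (1 / 2 : ℝ) • (e : E (d + 1)))) (e : E (d + 1)) with hs
      have hs2 := abs_le.1 hy1
      rw [mem_thickening_iff]
      refine ⟨a + (1 / 2 + s) • (e : E (d + 1)), ha _ ⟨by linarith, by linarith⟩, ?_⟩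
      rw [dist_eq_norm]
      have h3 : y - (a + (1 / 2 + s) • (e : E (d + 1))) =
          (y - (a + (1 / 2 : ℝ) • (e : E (d + 1)))) - s • (e : E (d + 1)) := by
        rw [add_smul]; abel
      rw [h3]
      linarith
    rw [inter_eq_self_of_subset_right h2]
    calc ENNReal.ofReal c0 * volume _ ≤ 1 * volume _ := by
          gcongr
          rw [← ENNReal.ofReal_one]
          exact ENNReal.ofReal_le_ofReal hc01
      _ = _ := one_mul _

end Pool.Agent.N248.KS
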